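import Pool.Agent.Helper84.VM.IterStep

/-!
# VM/Final: Vinogradov's mean value theorem (weak form)

`l₀ = (k + 1) / 2` (natural division, so `k / 2 ≤ l₀`), `s_l = k * (l₀ + l)`, `η_l = k (k+1) / 2 * (1 - 1/k) ^ l`, `D_l = 2 ^ (26 k ^ 6 l)`.
* `iter`: induction on `l` (`iter_step`, `k + s_l = s_(l+1)`), start: `JV s k X ≤ X ^ (2 s)` (`en_le_card_sq`, `card_tup`), `η_0 = k (k+1) / 2`.
* `eta_small`: for `k ≥ 7`: `(1 - 1/k) ^ k ≤ 1/2` (Bernoulli: `(1 + 1/(k-1)) ^ k ≥ 1 + k/(k-1) ≥ 2`), `k ^ 2 - l₀ ≥ k (k - 1)`, so the left side is at most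
  `k (k+1) / 2 / 2 ^ (k-1) ≤ 1/2` since `k (k+1) ≤ 2 ^ (k-1)`.  For `k = 2, …, 6`: numerically (`norm_num`).
* `vmvt`: `k = 1`: `JV 1 1 X = X` (pairs with `x = y`) `≤ X ^ (3/2)`.  `k ≥ 2`: `iter` with `l = k ^ 2 - l₀`, `s_l = k ^ 3`, and
  `2 ^ (26 k ^ 6 (k ^ 2 - l₀)) ≤ 2 ^ (26 k ^ 8) ≤ exp (26 k ^ 10)`.
-/

set_option autoImplicit false

namespace Pool.Agent.Helper84.VM

open Finset Pool.Agent.Helper58.LT

theorem iter (k : ℕ) (hk : 2 ≤ k) (l : ℕ) (hl : (k + 1) / 2 + l ≤ k ^ 2) :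
    ∀ X : ℕ, 1 ≤ X → (JV (k * ((k + 1) / 2 + l)) k X : ℝ) ≤ 2 ^ (26 * k ^ 6 * l) *
      (X : ℝ) ^ ((2 : ℝ) * ((k * ((k + 1) / 2 + l) : ℕ) : ℝ) - (k : ℝ) * (k + 1) / 2 +
        (k : ℝ) * (k + 1) / 2 * (1 - 1 / (k : ℝ)) ^ l) := by
  have hk0 : (0 : ℝ) < k := by
    have : (2 : ℝ) ≤ k := by exact_mod_cast hk
    linarith
  have hk2 : (2 : ℝ) ≤ k := by exact_mod_cast hk
  have hq0 : (0 : ℝ) ≤ 1 - 1 / (k : ℝ) := by
    rw [sub_nonneg, div_le_one hk0]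
    linarith
  have hq1 : 1 - 1 / (k : ℝ) ≤ 1 := by
    have : (0 : ℝ) ≤ 1 / (k : ℝ) := by positivity
    linarith
  induction l with
  | zero =>
    intro X hX
    have h1 : JV (k * ((k + 1) / 2 + 0)) k X ≤ (X ^ (k * ((k + 1) / 2 + 0))) ^ 2 := by
      unfold JV Js
      refine (en_le_card_sq _ _).trans (le_of_eq ?_)
      rw [card_tup]
      congr 2
      simp
    have h2 : (JV (k * ((k + 1) / 2 + 0)) k X : ℝ) ≤
        ((X : ℝ) ^ (k * ((k + 1) / 2 + 0))) ^ 2 := by exact_mod_cast h1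
    refine h2.trans (le_of_eq ?_)
    rw [mul_zero, pow_zero, one_mul, pow_zero, mul_one, sub_add_cancel, ← pow_mul,
      ← Real.rpow_natCast]
    congr 1
    push_cast
    ring
  | succ l ih =>
    intro X hX
    have hl' : (k + 1) / 2 + l ≤ k ^ 2 := by omega
    have ih' := ih hl'
    have hs : k ^ 2 ≤ 2 * (k * ((k + 1) / 2 + l)) := by
      have h1 : k ≤ 2 * ((k + 1) / 2 + l) := by omega
      calc k ^ 2 = k * k := sq k
        _ ≤ k * (2 * ((k + 1) / 2 + l)) := Nat.mul_le_mul_left k h1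
        _ = 2 * (k * ((k + 1) / 2 + l)) := by ring
    have hs' : k + k * ((k + 1) / 2 + l) ≤ k ^ 3 := by
      calc k + k * ((k + 1) / 2 + l) = k * ((k + 1) / 2 + (l + 1)) := by ring
        _ ≤ k * k ^ 2 := Nat.mul_le_mul_left k hl
        _ = k ^ 3 := by ring
    have hη0 : (0 : ℝ) ≤ (k : ℝ) * (k + 1) / 2 * (1 - 1 / (k : ℝ)) ^ l := by positivity
    have hη1 : (k : ℝ) * (k + 1) / 2 * (1 - 1 / (k : ℝ)) ^ l ≤ (k : ℝ) * (k + 1) / 2 := by
      have h1 : (1 - 1 / (k : ℝ)) ^ l ≤ 1 := pow_le_one₀ hq0 hq1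
      have h2 : (0 : ℝ) ≤ (k : ℝ) * (k + 1) / 2 := by positivity
      nlinarith
    have hD : (1 : ℝ) ≤ 2 ^ (26 * k ^ 6 * l) := one_le_pow₀ (by norm_num)
    have h := iter_step k (k * ((k + 1) / 2 + l)) hk hs hs' _ hη0 hη1 (2 ^ (26 * k ^ 6 * l)) hD
      ih' X hX
    have e1 : k + k * ((k + 1) / 2 + l) = k * ((k + 1) / 2 + (l + 1)) := by ring
    rw [e1] at h
    refine h.trans (le_of_eq ?_)
    have e2 : (2 : ℝ) ^ (26 * k ^ 6) * 2 ^ (26 * k ^ 6 * l) = 2 ^ (26 * k ^ 6 * (l + 1)) := by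
      rw [← pow_add]
      congr 1
      ring
    rw [e2]
    congr 2
    have e3 : ((k * ((k + 1) / 2 + (l + 1)) : ℕ) : ℝ) =
        (k : ℝ) + ((k * ((k + 1) / 2 + l) : ℕ) : ℝ) := by
      rw [← e1]
      push_cast
      ring
    rw [e3, pow_succ]
    ring

theorem eta_small (k : ℕ) (hk : 2 ≤ k) :
    (k : ℝ) * (k + 1) / 2 * (1 - 1 / (k : ℝ)) ^ (k ^ 2 - (k + 1) / 2) ≤ 1 / 2 := by
  rcases Nat.lt_or_ge k 7 with h7 | h7
  · interval_cases k <;> norm_num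
  · have hk7 : (7 : ℝ) ≤ k := by exact_mod_cast h7
    have hk0 : (0 : ℝ) < k := by linarith
    have hq0 : (0 : ℝ) < 1 - 1 / (k : ℝ) := by
      rw [sub_pos, div_lt_one hk0]
      linarith
    have hq1 : 1 - 1 / (k : ℝ) ≤ 1 := by
      have : (0 : ℝ) ≤ 1 / (k : ℝ) := by positivity
      linarith
    have hhalf : (1 - 1 / (k : ℝ)) ^ k ≤ 1 / 2 := by
      have hB := one_add_mul_le_pow (a := 1 / ((k : ℝ) - 1)) (by
        have : (0 : ℝ) < 1 / ((k : ℝ) - 1) := by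
          apply div_pos one_pos
          linarith
        linarith) k
      have h1 : (2 : ℝ) ≤ (1 + 1 / ((k : ℝ) - 1)) ^ k := by
        refine le_trans ?_ hB
        have h2 : (1 : ℝ) ≤ (k : ℝ) * (1 / ((k : ℝ) - 1)) := by
          rw [mul_one_div, le_div_iff₀ (by linarith)]
          linarith
        linarith
      have h3 : (1 - 1 / (k : ℝ)) = (1 + 1 / ((k : ℝ) - 1))⁻¹ := by
        have hk1 : (k : ℝ) - 1 ≠ 0 := by linarith
        have hk2 : (k : ℝ) ≠ 0 := by linarith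
        have e1 : 1 + 1 / ((k : ℝ) - 1) = k / (k - 1) := by
          rw [eq_div_iff hk1, add_mul, div_mul_cancel₀ _ hk1]
          ring
        rw [e1, inv_div, sub_div, div_self hk2]
      rw [h3, inv_pow]
      refine (inv_anti₀ (by norm_num) h1).trans ?_
      norm_num
    have he : k * (k - 1) ≤ k ^ 2 - (k + 1) / 2 := by
      have h1 : (k + 1) / 2 ≤ k := by omega
      have h2 : k * (k - 1) = k ^ 2 - k := by
        rw [Nat.mul_sub, mul_one, sq]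
      rw [h2]
      omega
    have h1 : (1 - 1 / (k : ℝ)) ^ (k ^ 2 - (k + 1) / 2) ≤ (1 / 2) ^ (k - 1) := by
      calc (1 - 1 / (k : ℝ)) ^ (k ^ 2 - (k + 1) / 2) ≤ (1 - 1 / (k : ℝ)) ^ (k * (k - 1)) :=
            pow_le_pow_of_le_one hq0.le hq1 he
        _ = ((1 - 1 / (k : ℝ)) ^ k) ^ (k - 1) := by rw [pow_mul]
        _ ≤ (1 / 2) ^ (k - 1) := pow_le_pow_left₀ (by positivity) hhalf _
    have h2 : (k : ℝ) * (k + 1) ≤ 2 ^ (k - 1) := by
      have h3 : ∀ n : ℕ, (n + 7) * (n + 7 + 1) ≤ 2 ^ (n + 6) := by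
        intro n
        induction n with
        | zero => norm_num
        | succ n ih =>
          calc (n + 1 + 7) * (n + 1 + 7 + 1) ≤ 2 * ((n + 7) * (n + 7 + 1)) := by nlinarith
            _ ≤ 2 * 2 ^ (n + 6) := Nat.mul_le_mul_left 2 ih
            _ = 2 ^ (n + 1 + 6) := by ring
      obtain ⟨n, rfl⟩ := Nat.exists_eq_add_of_le h7
      have h4 := h3 n
      have h5 : 7 + n - 1 = n + 6 := by omega
      rw [h5]
      have h6 : ((7 + n) * (7 + n + 1) : ℕ) ≤ 2 ^ (n + 6) := by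
        rw [Nat.add_comm 7 n]
        exact h4
      exact_mod_cast h6
    have h3 : (0 : ℝ) ≤ (k : ℝ) * (k + 1) / 2 := by positivity
    calc (k : ℝ) * (k + 1) / 2 * (1 - 1 / (k : ℝ)) ^ (k ^ 2 - (k + 1) / 2)
        ≤ (k : ℝ) * (k + 1) / 2 * (1 / 2) ^ (k - 1) := mul_le_mul_of_nonneg_left h1 h3
      _ ≤ 2 ^ (k - 1) / 2 * (1 / 2) ^ (k - 1) :=
          mul_le_mul_of_nonneg_right (by linarith) (by positivity)
      _ = 1 / 2 := by
          rw [one_div, inv_pow, div_mul_eq_mul_div, mul_inv_cancel₀ (by positivity)]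
          norm_num

theorem vmvt_one (X : ℕ) (hX : 1 ≤ X) : (JV 1 1 X : ℝ) ≤ (X : ℝ) ^ ((3 : ℝ) / 2) := by
  have h1 : JV 1 1 X ≤ X := by
    unfold JV Js en
    have hc : #(tup (Icc (1 : ℤ) X) 1) = X := by
      rw [card_tup]
      simp
    refine le_trans ?_ (le_of_eq hc)
    refine card_le_card_of_injOn (fun z => z.1) ?_ ?_
    · intro z hz
      rw [mem_coe, mem_filter, mem_product] at hz
      exact hz.1.1
    · rintro ⟨x, y⟩ hz ⟨x', y'⟩ hw heq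
      rw [mem_coe, mem_filter] at hz hw
      have key : ∀ a b : Fin 1 → ℤ, sm' (vino 1) a = sm' (vino 1) b → a = b := by
        intro a b hab
        have h := congrFun hab 0
        simp [sm', vino] at h
        funext i
        rw [Subsingleton.elim i 0]
        exact h
      have e1 : x = y := key _ _ hz.2
      have e2 : x' = y' := key _ _ hw.2
      have e3 : x = x' := heq
      rw [← e1, ← e2, e3]
  have hX1 : (1 : ℝ) ≤ X := by exact_mod_cast hX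
  calc (JV 1 1 X : ℝ) ≤ X := by exact_mod_cast h1
    _ = (X : ℝ) ^ (1 : ℝ) := (Real.rpow_one _).symm
    _ ≤ (X : ℝ) ^ ((3 : ℝ) / 2) := Real.rpow_le_rpow_of_exponent_le hX1 (by norm_num)

theorem vmvt : ∃ C : ℝ, 0 < C ∧ ∀ k : ℕ, 1 ≤ k → ∀ X : ℕ, 1 ≤ X →
    (JV (k ^ 3) k X : ℝ) ≤ Real.exp (C * (k : ℝ) ^ 10) *
      (X : ℝ) ^ ((2 : ℝ) * (k : ℝ) ^ 3 - (k : ℝ) * (k + 1) / 2 + 1 / 2) := by
  refine ⟨26, by norm_num, ?_⟩
  intro k hk X hX
  have hX1 : (1 : ℝ) ≤ X := by exact_mod_cast hX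
  rcases Nat.eq_or_lt_of_le hk with h1 | h2
  · subst h1
    have h := vmvt_one X hX
    have e : (2 : ℝ) * ((1 : ℕ) : ℝ) ^ 3 - ((1 : ℕ) : ℝ) * (((1 : ℕ) : ℝ) + 1) / 2 + 1 / 2 =
        3 / 2 := by norm_num
    rw [e, one_pow]
    refine h.trans ?_
    have h3 : (1 : ℝ) ≤ Real.exp (26 * ((1 : ℕ) : ℝ) ^ 10) := by
      apply Real.one_le_exp
      positivity
    have h4 : (0 : ℝ) ≤ (X : ℝ) ^ ((3 : ℝ) / 2) := by positivity
    exact le_mul_of_one_le_left h4 h3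
  · have hk2 : 2 ≤ k := h2
    have hle : (k + 1) / 2 ≤ k ^ 2 := by
      have : (k + 1) / 2 ≤ k := by omega
      nlinarith
    have h := iter k hk2 (k ^ 2 - (k + 1) / 2) (by omega) X hX
    have e1 : (k + 1) / 2 + (k ^ 2 - (k + 1) / 2) = k ^ 2 := by omega
    have e2 : k * k ^ 2 = k ^ 3 := by ring
    rw [e1, e2] at h
    refine h.trans ?_
    have h5 : (2 : ℝ) ^ (26 * k ^ 6 * (k ^ 2 - (k + 1) / 2)) ≤ Real.exp (26 * (k : ℝ) ^ 10) := by
      have h6 : (2 : ℝ) ≤ Real.exp 1 := by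
        have := Real.add_one_le_exp (1 : ℝ)
        linarith
      calc (2 : ℝ) ^ (26 * k ^ 6 * (k ^ 2 - (k + 1) / 2))
          ≤ (Real.exp 1) ^ (26 * k ^ 6 * (k ^ 2 - (k + 1) / 2)) :=
            pow_le_pow_left₀ (by norm_num) h6 _
        _ ≤ (Real.exp 1) ^ (26 * k ^ 10) := by
            apply pow_le_pow_right₀ (Real.one_le_exp (by norm_num))
            have h7 : k ^ 2 - (k + 1) / 2 ≤ k ^ 4 := by
              have h8 : k ^ 2 ≤ k ^ 4 := Nat.pow_le_pow_right (by omega) (by norm_num)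
              omega
            calc 26 * k ^ 6 * (k ^ 2 - (k + 1) / 2) ≤ 26 * k ^ 6 * k ^ 4 :=
                  Nat.mul_le_mul_left _ h7
              _ = 26 * k ^ 10 := by ring
        _ = Real.exp (26 * (k : ℝ) ^ 10) := by
            rw [← Real.exp_nat_mul]
            congr 1
            push_cast
            ring
    have h8 : (X : ℝ) ^ ((2 : ℝ) * ((k ^ 3 : ℕ) : ℝ) - (k : ℝ) * (k + 1) / 2 +
        (k : ℝ) * (k + 1) / 2 * (1 - 1 / (k : ℝ)) ^ (k ^ 2 - (k + 1) / 2)) ≤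
        (X : ℝ) ^ ((2 : ℝ) * (k : ℝ) ^ 3 - (k : ℝ) * (k + 1) / 2 + 1 / 2) := by
      apply Real.rpow_le_rpow_of_exponent_le hX1
      have := eta_small k hk2
      push_cast
      linarith
    exact mul_le_mul h5 h8 (by positivity) (by positivity)

end Pool.Agent.Helper84.VM
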