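import Pool.Agent.Helper84.VM.Newton

/-!
# VM/Perm: tuples with distinct residues mod `p` and equal power sums mod `p ^ k`

Work in `R = ZMod (p ^ k)` (`j` is a unit in `R` for `1 ≤ j ≤ k < p`: `ZMod.isUnit_iff_coprime`-type
lemma).  By `newton`, `∏_j (y_i - x_j) = 0` in `R`, i.e. `p ^ k ∣ ∏_j (y_i - x_j)`, for every `i`.
If `p` divided two factors `y_i - x_j`, `y_i - x_l`, `j ≠ l`, then `p ∣ x_j - x_l`, excluded.  Not all
factors are prime to `p` (if `k ≥ 1`), so exactly one `j = σ i` has `p ∣ y_i - x_j` and then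
`p ^ k ∣ y_i - x_j` (`IsCoprime.dvd_of_dvd_mul_left`, the other factors are prime to `p ^ k`).  `σ` is
injective because the `y_i` are distinct mod `p`; an injective map of `Fin k` is a permutation
(`Finite.injective_iff_bijective`, `Equiv.ofBijective`).  For `k = 0` everything is trivial.
-/

set_option autoImplicit false

namespace Pool.Agent.Helper84.VM

open Finset

theorem perm_of_psum (k p : ℕ) (hp : p.Prime) (hkp : k < p) (x y : Fin k → ℤ)
    (hx : ∀ i j, i ≠ j → ¬ (p : ℤ) ∣ x i - x j) (hy : ∀ i j, i ≠ j → ¬ (p : ℤ) ∣ y i - y j)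
    (h : ∀ j, 1 ≤ j → j ≤ k → (p : ℤ) ^ k ∣ ∑ i, x i ^ j - ∑ i, y i ^ j) :
    ∃ σ : Equiv.Perm (Fin k), ∀ i, (p : ℤ) ^ k ∣ y i - x (σ i) := by
  rcases Nat.eq_zero_or_pos k with hk0 | hk0
  · subst hk0
    exact ⟨1, fun i => i.elim0⟩
  have hpk : ((p ^ k : ℕ) : ℤ) = (p : ℤ) ^ k := by push_cast; rfl
  have hpZ : Prime (p : ℤ) := Nat.prime_iff_prime_int.1 hp
  have hu : ∀ j : ℕ, 1 ≤ j → j ≤ k → IsUnit (j : ZMod (p ^ k)) := by
    intro j h1 h2
    rw [ZMod.isUnit_iff_coprime]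
    apply Nat.Coprime.pow_right
    rw [Nat.coprime_comm]
    exact (Nat.Prime.coprime_iff_not_dvd hp).2
      (fun hd => absurd (Nat.le_of_dvd (by omega) hd) (by omega))
  have hcast : ∀ a : ℤ, ((a : ℤ) : ZMod (p ^ k)) = 0 ↔ (p : ℤ) ^ k ∣ a := by
    intro a
    rw [ZMod.intCast_zmod_eq_zero_iff_dvd, hpk]
  have h' : ∀ j, 1 ≤ j → j ≤ k →
      ∑ i, ((x i : ℤ) : ZMod (p ^ k)) ^ j = ∑ i, ((y i : ℤ) : ZMod (p ^ k)) ^ j := by
    intro j h1 h2
    have h3 := (hcast _).2 (h j h1 h2)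
    push_cast at h3
    exact sub_eq_zero.1 h3
  have hpoly := newton k hu (fun i => ((x i : ℤ) : ZMod (p ^ k)))
    (fun i => ((y i : ℤ) : ZMod (p ^ k))) h'
  have hprod : ∀ i, (p : ℤ) ^ k ∣ ∏ j, (y i - x j) := by
    intro i
    rw [← hcast]
    have h4 := congrArg (Polynomial.eval ((y i : ℤ) : ZMod (p ^ k))) hpoly
    rw [Polynomial.eval_prod, Polynomial.eval_prod] at h4
    simp only [Polynomial.eval_sub, Polynomial.eval_X, Polynomial.eval_C] at h4
    push_cast
    rw [h4]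
    exact Finset.prod_eq_zero (Finset.mem_univ i) (sub_self _)
  have hex : ∀ i, ∃ j, (p : ℤ) ∣ y i - x j := by
    intro i
    have h5 : (p : ℤ) ∣ ∏ j, (y i - x j) :=
      dvd_trans (dvd_pow_self (p : ℤ) (by omega)) (hprod i)
    obtain ⟨j, -, hj⟩ := (Prime.dvd_finset_prod_iff hpZ _).1 h5
    exact ⟨j, hj⟩
  choose s hs using hex
  have hsk : ∀ i, (p : ℤ) ^ k ∣ y i - x (s i) := by
    intro i
    have h6 := hprod i
    rw [← Finset.mul_prod_erase Finset.univ (fun j => y i - x j) (Finset.mem_univ (s i))] at h6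
    refine IsCoprime.dvd_of_dvd_mul_right ?_ h6
    apply IsCoprime.pow_left
    apply IsCoprime.prod_right
    intro l hl
    rw [(Prime.irreducible hpZ).coprime_iff_not_dvd]
    intro hd
    apply hx (s i) l (Finset.ne_of_mem_erase hl).symm
    have h7 := dvd_sub hd (hs i)
    have h8 : y i - x l - (y i - x (s i)) = x (s i) - x l := by ring
    rwa [h8] at h7
  have hinj : Function.Injective s := by
    intro i i' hii
    by_contra hne
    apply hy i i' hne
    have h9 := dvd_sub (hs i) (hs i')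
    rw [hii] at h9
    have h10 : y i - x (s i') - (y i' - x (s i')) = y i - y i' := by ring
    rwa [h10] at h9
  exact ⟨Equiv.ofBijective s (Finite.injective_iff_bijective.1 hinj), fun i => hsk i⟩

end Pool.Agent.Helper84.VM
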