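import Pool.Agent.Helper58.LT.Defs
import Pool.Agent.Helper84.VM.Perm

/-!
# VM/Linnik: Linnik's lemma

* `card_lifts`: each factor has `p ^ (k - (j+1))` elements (`Int.Ico_filter_dvd_card` or
  `Int.Ico_filter_modEq_card`; or the bijection with `range (p ^ (k - (j+1)))`), and
  `∑ j < k, (k - (j + 1)) = k (k - 1) / 2` (`Finset.sum_range_id`, reflect).
* `linnik`: map `x` of the set to the vector `j ↦ (∑ i, x i ^ (j+1)) % p ^ k`, an element of the set of
  `card_lifts` (`p ^ (j+1) ∣ p ^ k`).  Two elements `x, y` of one fibre have power sums congruent mod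
  `p ^ k` for the exponents `1..k`, so by `perm_of_psum` `y i = x (σ i)` for a permutation `σ`
  (`hI`): the fibre of `x` is contained in the image of the `k!` permutations under `σ ↦ x ∘ σ`.
  (`Finset.card_le_mul_card_image`.)
-/

set_option autoImplicit false

namespace Pool.Agent.Helper84.VM

open Finset Pool.Agent.Helper58.LT

private theorem lin_factor (p k j : ℕ) (hp : 0 < p) (hj : j < k) (c : ℤ) :
    #((Ico (0 : ℤ) ((p : ℤ) ^ k)).filter fun z => (p : ℤ) ^ (j + 1) ∣ z - c) ≤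
      p ^ (k - 1 - j) := by
  classical
  have hpp : (0 : ℤ) < (p : ℤ) ^ (j + 1) := by
    have : (0 : ℤ) < (p : ℤ) := by exact_mod_cast hp
    positivity
  have hcard : #(Ico (0 : ℤ) ((p : ℤ) ^ (k - 1 - j))) = p ^ (k - 1 - j) := by
    rw [Int.card_Ico, sub_zero]
    rw [show ((p : ℤ) ^ (k - 1 - j)) = ((p ^ (k - 1 - j) : ℕ) : ℤ) by push_cast; rfl, Int.toNat_natCast]
  rw [← hcard]
  refine card_le_card_of_injOn (fun z => z / (p : ℤ) ^ (j + 1)) ?_ ?_
  · intro z hz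
    simp only [coe_filter, Set.mem_setOf_eq, mem_Ico] at hz
    obtain ⟨⟨h0, h1⟩, -⟩ := hz
    simp only [coe_Ico, Set.mem_Ico]
    refine ⟨Int.ediv_nonneg h0 hpp.le, ?_⟩
    rw [Int.ediv_lt_iff_lt_mul hpp, ← pow_add, show k - 1 - j + (j + 1) = k by omega]
    exact h1
  · intro z hz w hw hzw
    simp only [coe_filter, Set.mem_setOf_eq, mem_Ico] at hz hw
    simp only at hzw
    have hdvd : (p : ℤ) ^ (j + 1) ∣ w - z := by
      have := dvd_sub hw.2 hz.2
      have e : w - c - (z - c) = w - z := by ring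
      rwa [e] at this
    have hmod : z % (p : ℤ) ^ (j + 1) = w % (p : ℤ) ^ (j + 1) := Int.modEq_iff_dvd.2 hdvd
    rw [← Int.mul_ediv_add_emod z ((p : ℤ) ^ (j + 1)), ← Int.mul_ediv_add_emod w ((p : ℤ) ^ (j + 1)),
      hzw, hmod]

theorem card_lifts (p k : ℕ) (hp : 0 < p) (h : ℕ → ℤ) :
    #(Fintype.piFinset fun j : Fin k => (Ico (0 : ℤ) ((p : ℤ) ^ k)).filter
      fun z => (p : ℤ) ^ ((j : ℕ) + 1) ∣ z - h j) ≤ p ^ (k * (k - 1) / 2) := by
  rw [Fintype.card_piFinset]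
  calc ∏ j : Fin k, #((Ico (0 : ℤ) ((p : ℤ) ^ k)).filter fun z => (p : ℤ) ^ ((j : ℕ) + 1) ∣ z - h j)
      ≤ ∏ j : Fin k, p ^ (k - 1 - (j : ℕ)) :=
        Finset.prod_le_prod' fun j _ => lin_factor p k j hp j.2 (h j)
    _ = ∏ j ∈ range k, p ^ (k - 1 - j) := by
        rw [Finset.prod_range]
    _ = ∏ j ∈ range k, p ^ j := Finset.prod_range_reflect (fun j => p ^ j) k
    _ = p ^ (∑ j ∈ range k, j) := by rw [Finset.prod_pow_eq_pow_sum]
    _ = p ^ (k * (k - 1) / 2) := by rw [Finset.sum_range_id]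

theorem linnik (k p : ℕ) (hp : p.Prime) (hkp : k < p) (I : Finset ℤ)
    (hI : ∀ a ∈ I, ∀ b ∈ I, (p : ℤ) ^ k ∣ a - b → a = b) (h : ℕ → ℤ) :
    #((tup I k).filter fun x => (∀ i j, i ≠ j → ¬ (p : ℤ) ∣ x i - x j) ∧
      ∀ j < k, (p : ℤ) ^ (j + 1) ∣ ∑ i, x i ^ (j + 1) - h j) ≤
      k.factorial * p ^ (k * (k - 1) / 2) := by
  classical
  have hp0 : (0 : ℤ) < (p : ℤ) ^ k := by
    have : (0 : ℤ) < (p : ℤ) := by exact_mod_cast hp.pos
    positivity
  set A := (tup I k).filter fun x => (∀ i j, i ≠ j → ¬ (p : ℤ) ∣ x i - x j) ∧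
      ∀ j < k, (p : ℤ) ^ (j + 1) ∣ ∑ i, x i ^ (j + 1) - h j with hA
  set B := Fintype.piFinset fun j : Fin k => (Ico (0 : ℤ) ((p : ℤ) ^ k)).filter
      fun z => (p : ℤ) ^ ((j : ℕ) + 1) ∣ z - h j with hB
  let Φ : (Fin k → ℤ) → (Fin k → ℤ) := fun x j => (∑ i, x i ^ ((j : ℕ) + 1)) % (p : ℤ) ^ k
  have hmap : ∀ x ∈ A, Φ x ∈ B := by
    intro x hx
    rw [hA, mem_filter] at hx
    obtain ⟨-, -, hx2⟩ := hx
    rw [hB, Fintype.mem_piFinset]
    intro j
    rw [mem_filter, mem_Ico]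
    refine ⟨⟨Int.emod_nonneg _ hp0.ne', Int.emod_lt_of_pos _ hp0⟩, ?_⟩
    have h1 : (p : ℤ) ^ ((j : ℕ) + 1) ∣ (p : ℤ) ^ k := pow_dvd_pow _ j.2
    have h2 : (p : ℤ) ^ ((j : ℕ) + 1) ∣
        ∑ i, x i ^ ((j : ℕ) + 1) - (∑ i, x i ^ ((j : ℕ) + 1)) % (p : ℤ) ^ k := by
      refine h1.trans ?_
      exact Int.dvd_self_sub_emod
    have h3 := dvd_sub (hx2 j j.2) h2
    have e : ∑ i, x i ^ ((j : ℕ) + 1) - h j -
        (∑ i, x i ^ ((j : ℕ) + 1) - (∑ i, x i ^ ((j : ℕ) + 1)) % (p : ℤ) ^ k) = Φ x j - h j := by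
      simp only [Φ]; ring
    rwa [e] at h3
  have hfib : ∀ b ∈ A.image Φ, #(A.filter fun x => Φ x = b) ≤ k.factorial := by
    intro b hb
    rw [mem_image] at hb
    obtain ⟨x, hx, rfl⟩ := hb
    have hsub : (A.filter fun y => Φ y = Φ x) ⊆
        (Finset.univ : Finset (Equiv.Perm (Fin k))).image fun σ => fun i => x (σ i) := by
      intro y hy
      rw [mem_filter] at hy
      obtain ⟨hyA, hyx⟩ := hy
      rw [hA, mem_filter, mem_tup] at hx hyA
      obtain ⟨hxI, hx1, -⟩ := hx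
      obtain ⟨hyI, hy1, -⟩ := hyA
      obtain ⟨σ, hσ⟩ := perm_of_psum k p hp hkp x y hx1 hy1 (by
        intro j h1 h2
        have h3 := congrFun hyx ⟨j - 1, by omega⟩
        simp only [Φ] at h3
        rw [show j - 1 + 1 = j by omega] at h3
        exact Int.modEq_iff_dvd.1 h3)
      rw [mem_image]
      refine ⟨σ, mem_univ _, ?_⟩
      funext i
      exact (hI _ (hyI i) _ (hxI (σ i)) (hσ i)).symm
    refine (card_le_card hsub).trans ?_
    refine card_image_le.trans ?_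
    rw [card_univ, Fintype.card_perm, Fintype.card_fin]
  calc #A ≤ k.factorial * #(A.image Φ) := card_le_mul_card_image A k.factorial hfib
    _ ≤ k.factorial * #B := Nat.mul_le_mul_left _ (card_le_card (by
        intro b hb
        rw [mem_image] at hb
        obtain ⟨x, hx, rfl⟩ := hb
        exact hmap x hx))
    _ ≤ k.factorial * p ^ (k * (k - 1) / 2) := Nat.mul_le_mul_left _ (card_lifts p k hp.pos h)

end Pool.Agent.Helper84.VM
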