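import Pool.Agent.Helper84.VM.TD
import Pool.Agent.Helper84.VM.Linnik

/-!
# VM/ClassB: solutions whose last `s` variables lie in one residue class

`Yp k p X` = the tuples in `[1, X] ^ k` with distinct residues mod `p`.
* `count_pairs`: for each `y` (at most `X ^ k`), `linnik` for `I = (Icc 1 X).image (· - c)` (or `.map`) and
  `h j = ∑ i, (y i - c) ^ (j + 1)`: the number of `y'` is at most `k! p ^ (k(k-1)/2)`.
  (`hI`: two elements of `[1, X]` congruent mod `p ^ k > X` are equal.)
* `class_bound`: group the solutions `((y, u), (y', u'))` by `(y, y')`.  For fixed `(y, y')` the number of `(u, u')` with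
  `sm' u = sm' u' + (sm' y' - sm' y)` is `≤ en (tup I_c s) (sm' (vino k)) = Js I_c (vino k) s ≤ JV s k (X / p + 1)` by `en_shift_le` (Helper58/LT/Pos) and
  `J_class`; if there is one then `(y, y')` is in the set of `count_pairs` by `cong_of_eq`.
-/

set_option autoImplicit false

namespace Pool.Agent.Helper84.VM

open Finset Pool.Agent.Helper58.LT

/-- tuples in `[1, X] ^ k` with distinct residues mod `p` -/
noncomputable def Yp (k p X : ℕ) : Finset (Fin k → ℤ) :=
  (tup (Icc (1 : ℤ) X) k).filter fun y => ∀ i j, i ≠ j → ¬ (p : ℤ) ∣ y i - y j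

/-- the residue class of `c` in `[1, X]` -/
noncomputable def Ic (p X : ℕ) (c : ℤ) : Finset ℤ := (Icc (1 : ℤ) X).filter fun u => (p : ℤ) ∣ u - c

/-- the map of the mixed system -/
def mx (k s : ℕ) (z : (Fin k → ℤ) × (Fin s → ℤ)) : Fin k → ℤ :=
  sm' (vino k) z.1 + sm' (vino k) z.2

theorem count_pairs (k p X : ℕ) (hp : p.Prime) (hkp : k < p) (hX : X < p ^ k) (c : ℤ) :
    #((Yp k p X ×ˢ Yp k p X).filter fun z => ∀ j < k,
      (p : ℤ) ^ (j + 1) ∣ ∑ i, (z.1 i - c) ^ (j + 1) - ∑ i, (z.2 i - c) ^ (j + 1)) ≤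
      X ^ k * (k.factorial * p ^ (k * (k - 1) / 2)) := by
  classical
  set I : Finset ℤ := (Icc (1 : ℤ) X).image (fun u => u - c) with hI
  have hIc : ∀ a ∈ I, ∀ b ∈ I, (p : ℤ) ^ k ∣ a - b → a = b := by
    intro a ha b hb hab
    rw [hI, mem_image] at ha hb
    obtain ⟨u, hu, rfl⟩ := ha
    obtain ⟨v, hv, rfl⟩ := hb
    rw [mem_Icc] at hu hv
    have hXp : (X : ℤ) < (p : ℤ) ^ k := by exact_mod_cast hX
    have h1 : u - c - (v - c) = 0 := by
      refine Int.eq_zero_of_abs_lt_dvd hab ?_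
      rw [abs_lt]
      constructor <;> linarith [hu.1, hu.2, hv.1, hv.2]
    linarith
  have h := card_le_mul_card_image_of_maps_to
    (s := (Yp k p X ×ˢ Yp k p X).filter fun z : (Fin k → ℤ) × (Fin k → ℤ) => ∀ j < k,
      (p : ℤ) ^ (j + 1) ∣ ∑ i, (z.1 i - c) ^ (j + 1) - ∑ i, (z.2 i - c) ^ (j + 1))
    (t := tup (Icc (1 : ℤ) X) k) (f := Prod.fst) (by
      intro z hz
      rw [mem_filter, mem_product, Yp, mem_filter] at hz
      exact hz.1.1.1) (k.factorial * p ^ (k * (k - 1) / 2)) (by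
      intro y _
      refine le_trans ?_ (linnik k p hp hkp I hIc (fun j => ∑ i, (y i - c) ^ (j + 1)))
      refine card_le_card_of_injOn
        (fun z : (Fin k → ℤ) × (Fin k → ℤ) => fun i => z.2 i - c) ?_ ?_
      · rintro ⟨y1, y2⟩ hz
        rw [mem_coe, mem_filter, mem_filter, mem_product] at hz
        obtain ⟨⟨⟨_, h2⟩, h3⟩, h4⟩ := hz
        simp only at h2 h3 h4
        subst h4
        rw [Yp, mem_filter, mem_tup] at h2
        rw [mem_coe, mem_filter, mem_tup]
        refine ⟨?_, ?_, ?_⟩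
        · intro i
          exact mem_image.2 ⟨y2 i, h2.1 i, rfl⟩
        · intro i j hij hd
          apply h2.2 i j hij
          simpa using hd
        · intro j hj
          exact (dvd_sub_comm).1 (h3 j hj)
      · rintro ⟨y1, y2⟩ hz ⟨w1, w2⟩ hw heq
        rw [mem_coe, mem_filter] at hz hw
        have e1 : y1 = w1 := by
          have := hz.2.trans hw.2.symm
          exact this
        have e2 : y2 = w2 := by
          funext i
          have := congrFun heq i
          simp only at this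
          linarith
        rw [e1, e2])
  have hc : #(tup (Icc (1 : ℤ) X) k) = X ^ k := by
    rw [card_tup]
    congr 1
    simp
  rw [hc] at h
  rw [mul_comm]
  exact h

theorem class_bound (k s p X : ℕ) (hp : p.Prime) (hkp : k < p) (hX : X < p ^ k) (c : ℤ) :
    en (Yp k p X ×ˢ tup (Ic p X c) s) (mx k s) ≤
      X ^ k * (k.factorial * p ^ (k * (k - 1) / 2)) * JV s k (X / p + 1) := by
  classical
  have hJ : en (tup (Ic p X c) s) (sm' (vino k)) ≤ JV s k (X / p + 1) :=
    J_class k s X p hp.pos c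
  unfold en
  have h := card_le_mul_card_image_of_maps_to
    (s := {z ∈ (Yp k p X ×ˢ tup (Ic p X c) s) ×ˢ (Yp k p X ×ˢ tup (Ic p X c) s) |
      mx k s z.1 = mx k s z.2})
    (t := (Yp k p X ×ˢ Yp k p X).filter fun z : (Fin k → ℤ) × (Fin k → ℤ) => ∀ j < k,
      (p : ℤ) ^ (j + 1) ∣ ∑ i, (z.1 i - c) ^ (j + 1) - ∑ i, (z.2 i - c) ^ (j + 1))
    (f := fun z : ((Fin k → ℤ) × (Fin s → ℤ)) × ((Fin k → ℤ) × (Fin s → ℤ)) => (z.1.1, z.2.1)) (by
      rintro ⟨⟨y, u⟩, y', u'⟩ hz
      rw [mem_filter, mem_product, mem_product, mem_product] at hz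
      obtain ⟨⟨⟨hy, hu⟩, hy', hu'⟩, he⟩ := hz
      rw [mem_filter, mem_product]
      refine ⟨⟨hy, hy'⟩, ?_⟩
      intro j hj
      refine cong_of_eq k p c y y' u u' ?_ ?_ he j hj
      · intro i
        have := mem_tup.1 hu i
        rw [Ic, mem_filter] at this
        exact this.2
      · intro i
        have := mem_tup.1 hu' i
        rw [Ic, mem_filter] at this
        exact this.2) (JV s k (X / p + 1)) (by
      rintro ⟨y, y'⟩ _
      refine le_trans ?_ hJ
      refine le_trans ?_ (en_shift_le (tup (Ic p X c) s) (sm' (vino k))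
        (sm' (vino k) y' - sm' (vino k) y))
      refine card_le_card_of_injOn
        (fun z : ((Fin k → ℤ) × (Fin s → ℤ)) × ((Fin k → ℤ) × (Fin s → ℤ)) => (z.1.2, z.2.2)) ?_ ?_
      · rintro ⟨⟨a, u⟩, a', u'⟩ hz
        rw [mem_coe, mem_filter, mem_filter, mem_product, mem_product, mem_product] at hz
        obtain ⟨⟨⟨⟨_, hu⟩, _, hu'⟩, he⟩, hf⟩ := hz
        simp only [Prod.mk.injEq] at hf
        obtain ⟨rfl, rfl⟩ := hf
        rw [mem_coe, mem_filter, mem_product]
        refine ⟨⟨hu, hu'⟩, ?_⟩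
        have he' : sm' (vino k) a + sm' (vino k) u = sm' (vino k) a' + sm' (vino k) u' := he
        have : sm' (vino k) u = sm' (vino k) a' + sm' (vino k) u' - sm' (vino k) a := by
          rw [← he']
          abel
        simp only
        rw [this]
        abel
      · rintro ⟨⟨a, u⟩, a', u'⟩ hz ⟨⟨b, v⟩, b', v'⟩ hw heq
        rw [mem_coe, mem_filter] at hz hw
        have h1 := hz.2
        have h2 := hw.2
        simp only [Prod.mk.injEq] at h1 h2 heq
        obtain ⟨rfl, rfl⟩ := h1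
        obtain ⟨rfl, rfl⟩ := h2
        obtain ⟨rfl, rfl⟩ := heq
        rfl)
  refine h.trans ?_
  rw [mul_comm]
  exact Nat.mul_le_mul_right _ (count_pairs k p X hp hkp hX c)

end Pool.Agent.Helper84.VM
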