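import Pool.Agent.Helper58.LT.Defs

/-!
# VM/Deg: tuples with few distinct values, tuples with many distinct values

* `deg_count`: if the image of `x : Fin r → ℤ` has at most `k - 1` elements then `x = w ∘ f` with `w : Fin (k - 1) → I` and
  `f : Fin r → Fin (k - 1)` (choose `w` with range containing the image, `I` is nonempty; if `k = 1` then `r = 0`).  So the set is contained in the
  image of `(w, f) ↦ w ∘ f`.
* `nd_perm`: the image of `x` has `≥ k` elements: there is an injection `e : Fin k → Fin (k + s)` with `x ∘ e` injective; extend it to a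
  permutation `σ` with `σ (Fin.castAdd s i) = e i` (multiple transitivity of `Equiv.Perm`, `Equiv.Perm.isMultiplyPretransitive`, or
  `Equiv.extendSubtype`, or `Function.Embedding` counting arguments).
-/

set_option autoImplicit false

namespace Pool.Agent.Helper84.VM

open Finset Pool.Agent.Helper58.LT

theorem deg_count (k r : ℕ) (hk : 1 ≤ k) (I : Finset ℤ) (hI : I.Nonempty) :
    #((tup I r).filter fun x => #(univ.image x) < k) ≤ #I ^ (k - 1) * (k - 1) ^ r := by
  classical
  obtain ⟨i0, hi0⟩ := hI
  have hsub : ((tup I r).filter fun x => #(univ.image x) < k) ⊆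
      (tup I (k - 1) ×ˢ (univ : Finset (Fin r → Fin (k - 1)))).image
        (fun z : (Fin (k - 1) → ℤ) × (Fin r → Fin (k - 1)) => z.1 ∘ z.2) := by
    intro x hx
    rw [mem_filter, mem_tup] at hx
    obtain ⟨hxI, hxk⟩ := hx
    have hle : #(univ.image x) ≤ k - 1 := by omega
    let φ := (univ.image x).equivFin
    rw [mem_image]
    refine ⟨(fun j => if h : (j : ℕ) < #(univ.image x) then ((φ.symm ⟨j, h⟩ : _) : ℤ) else i0,
      fun i => Fin.castLE hle (φ ⟨x i, mem_image_of_mem _ (mem_univ i)⟩)), ?_, ?_⟩
    · rw [mem_product]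
      refine ⟨?_, mem_univ _⟩
      rw [mem_tup]
      intro j
      dsimp only
      split_ifs with h
      · have := (φ.symm ⟨j, h⟩).2
        rw [mem_image] at this
        obtain ⟨a, -, ha⟩ := this
        rw [← ha]
        exact hxI a
      · exact hi0
    · funext i
      simp
  refine (card_le_card hsub).trans (card_image_le.trans ?_)
  rw [card_product, card_tup, card_univ, Fintype.card_fun, Fintype.card_fin, Fintype.card_fin]

theorem nd_perm (k s : ℕ) (x : Fin (k + s) → ℤ) (h : k ≤ #(univ.image x)) :
    ∃ σ : Equiv.Perm (Fin (k + s)), Function.Injective (fun i : Fin k => x (σ (Fin.castAdd s i))) := by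
  classical
  obtain ⟨S, hS, hSk⟩ := exists_subset_card_eq h
  have hg : ∀ v : S, ∃ i, x i = (v : ℤ) := by
    intro v
    have := hS v.2
    rw [mem_image] at this
    obtain ⟨a, -, ha⟩ := this
    exact ⟨a, ha⟩
  choose g hg using hg
  let φ : Fin k ≃ S := (S.equivFinOfCardEq hSk).symm
  have hinj : Function.Injective (fun i : Fin k => x (g (φ i))) := by
    intro i j hij
    simp only [hg] at hij
    exact φ.injective (Subtype.ext hij)
  have hinj' : Function.Injective (fun i : Fin k => g (φ i)) := by
    intro i j hij
    apply hinj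
    exact congrArg x hij
  obtain ⟨σ, hσ⟩ := Equiv.Perm.exists_extending_pair (Fin.castAdd s : Fin k → Fin (k + s))
    (fun i : Fin k => g (φ i)) (Fin.castAdd_injective k s) hinj'
  refine ⟨σ, ?_⟩
  simp only [hσ]
  exact hinj

end Pool.Agent.Helper84.VM
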