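import Pool.Agent.Helper58.LT.Pos

/-!
# VM/Energy: elementary facts on the additive energy `en`

With `r v = #{x ∈ T | F x = v}` (`v` in the finite set `T.image F`), `en T F = ∑ v, r v ^ 2`.
(`en_mono`, `en_shift_le`, `en_le_card_sq` are in Helper58/LT/Pos.)
* `en_biUnion`: `r_{K.biUnion B} v ≤ ∑ c ∈ K, r_{B c} v`, so
  `r v ^ 2 ≤ #K * ∑ c ∈ K, r_{B c} v ^ 2` (`sq_sum_le_card_mul_sum_sq`).
* `en_union`: the case of two sets, `(a + b) ^ 2 ≤ 2 a ^ 2 + 2 b ^ 2`.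
* `en_map`: `(x, y) ↦ (e x, e y)` maps the pairs of `en T F` injectively into the pairs of `en U F'`.
-/

set_option autoImplicit false

namespace Pool.Agent.Helper84.VM

open Finset Pool.Agent.Helper58.LT

private theorem en_eq {τ A : Type*} [DecidableEq A] (T : Finset τ) (F : τ → A) (V : Finset A)
    (hV : ∀ x ∈ T, F x ∈ V) : en T F = ∑ w ∈ V, #{x ∈ T | F x = w} ^ 2 := by
  refine le_antisymm ?_ (pos_sum_sq T F V)
  unfold en
  rw [card_eq_sum_card_fiberwise (f := fun z : τ × τ => F z.1) (t := V)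
    (s := {z ∈ T ×ˢ T | F z.1 = F z.2}) (by
      intro z hz
      exact hV _ (mem_product.1 (mem_filter.1 hz).1).1)]
  refine sum_le_sum fun w _ => ?_
  rw [sq, ← card_product]
  refine card_le_card ?_
  rintro ⟨x, y⟩ hz
  simp only [mem_filter, mem_product] at hz ⊢
  obtain ⟨⟨⟨hx, hy⟩, h2⟩, h3⟩ := hz
  exact ⟨⟨hx, h3⟩, hy, h2.symm.trans h3⟩

theorem en_biUnion {τ A κ : Type*} [DecidableEq τ] [DecidableEq A] (K : Finset κ)
    (B : κ → Finset τ) (F : τ → A) :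
    en (K.biUnion B) F ≤ #K * ∑ c ∈ K, en (B c) F := by
  rw [en_eq (K.biUnion B) F ((K.biUnion B).image F) (fun x hx => mem_image_of_mem F hx)]
  have h1 : ∀ w ∈ (K.biUnion B).image F, #{x ∈ K.biUnion B | F x = w} ^ 2 ≤
      #K * ∑ c ∈ K, #{x ∈ B c | F x = w} ^ 2 := by
    intro w _
    have h2 : #{x ∈ K.biUnion B | F x = w} ≤ ∑ c ∈ K, #{x ∈ B c | F x = w} := by
      rw [filter_biUnion]
      exact card_biUnion_le
    exact (Nat.pow_le_pow_left h2 2).trans sq_sum_le_card_mul_sum_sq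
  refine (sum_le_sum h1).trans ?_
  rw [← mul_sum, sum_comm]
  exact Nat.mul_le_mul_left _ (sum_le_sum fun c _ => pos_sum_sq (B c) F _)

theorem en_union {τ A : Type*} [DecidableEq τ] [DecidableEq A] (T U : Finset τ) (F : τ → A) :
    en (T ∪ U) F ≤ 2 * en T F + 2 * en U F := by
  rw [en_eq (T ∪ U) F ((T ∪ U).image F) (fun x hx => mem_image_of_mem F hx)]
  have h1 : ∀ w ∈ (T ∪ U).image F, #{x ∈ T ∪ U | F x = w} ^ 2 ≤
      2 * #{x ∈ T | F x = w} ^ 2 + 2 * #{x ∈ U | F x = w} ^ 2 := by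
    intro w _
    have h2 : #{x ∈ T ∪ U | F x = w} ≤ #{x ∈ T | F x = w} + #{x ∈ U | F x = w} := by
      rw [filter_union]
      exact card_union_le _ _
    refine (Nat.pow_le_pow_left h2 2).trans ?_
    zify
    nlinarith [sq_nonneg ((#{x ∈ T | F x = w} : ℤ) - (#{x ∈ U | F x = w} : ℤ))]
  refine (sum_le_sum h1).trans ?_
  rw [sum_add_distrib, ← mul_sum, ← mul_sum]
  exact Nat.add_le_add (Nat.mul_le_mul_left _ (pos_sum_sq T F _))
    (Nat.mul_le_mul_left _ (pos_sum_sq U F _))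

theorem en_map {τ τ' A A' : Type*} [DecidableEq A] [DecidableEq A'] (T : Finset τ)
    (U : Finset τ') (F : τ → A) (F' : τ' → A') (e : τ → τ') (he : ∀ x ∈ T, e x ∈ U)
    (hi : Set.InjOn e T) (hF : ∀ x ∈ T, ∀ y ∈ T, F x = F y → F' (e x) = F' (e y)) :
    en T F ≤ en U F' := by
  unfold en
  refine card_le_card_of_injOn (fun z => (e z.1, e z.2)) ?_ ?_
  · rintro ⟨x, y⟩ hz
    simp only [coe_filter, mem_product, Set.mem_ofPred_eq] at hz ⊢
    obtain ⟨⟨hx, hy⟩, h⟩ := hz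
    exact ⟨⟨he x hx, he y hy⟩, hF x hx y hy h⟩
  · rintro ⟨x, y⟩ hz ⟨x', y'⟩ hz' h
    simp only [coe_filter, mem_product, Set.mem_ofPred_eq] at hz hz'
    simp only [Prod.mk.injEq] at h
    rw [hi hz.1.1 hz'.1.1 h.1, hi hz.1.2 hz'.1.2 h.2]

end Pool.Agent.Helper84.VM
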