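import Pool.Agent.Helper84.VM.Step

/-!
# VM/IterStep: one step of the iteration, real exponents

Let `e = 2 s - k (k+1) / 2 + η ≥ 0` (as `2 s ≥ k ^ 2`, `k ≥ 1`; `k ^ 2 ≥ k (k+1) / 2`), `C = 2 ^ (3 k ^ 3)` (real), `p` from `step`: `p ≤ C X ^ (1/k)`
(take `k`-th roots of `p ^ k ≤ 2 ^ (3 k ^ 4) X`), in particular `p ≤ C X` and `1 ≤ C X / p`.
`Y = X / p + 1` (natural division) satisfies `Y ≤ X / p + 1 ≤ (1 + C) X / p` in `ℝ` (`Nat.cast_div_le`), so `Y ^ e ≤ ((1 + C) X / p) ^ e`.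
First term of `step`:
`2 (k+s)! ^ 2 k ^ 6 k! * p ^ (2 s + k(k-1)/2) X ^ k D (1+C) ^ e X ^ e p ^ (-e)`
`= (…) * D (1+C) ^ e X ^ (k + e) p ^ (k ^ 2 - η)` (`2 s + k(k-1)/2 - e = k ^ 2 - η ≥ 0`)
`≤ (…) * D (1+C) ^ e C ^ (k ^ 2) X ^ (k + e + k - η / k)`, and `k + e + k - η / k = 2 (k + s) - k (k+1)/2 + η (1 - 1/k)`.
Second term: `2 (k-1) ^ (2 (k+s)) X ^ (2 k - 2)` and `2 k - 2 ≤ 2 (k + s) - k (k+1) / 2`.
Constants (`k ≥ 2`, `k + s ≤ k ^ 3`): `(k+s)! ≤ (k ^ 3) ^ (k ^ 3) ≤ 2 ^ (3 k ^ 4)` (`k ≤ 2 ^ k`), `k ^ 6 ≤ 2 ^ (6 k)`, `k! ≤ 2 ^ (k ^ 2)`,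
`(1 + C) ^ e ≤ (2 C) ^ (2 k ^ 3) = 2 ^ (6 k ^ 6 + 2 k ^ 3)`, `C ^ (k ^ 2) = 2 ^ (3 k ^ 5)`, `(k-1) ^ (2 (k+s)) ≤ 2 ^ (2 k ^ 4)`; the sum of all
exponents is at most `10 k ^ 6` (for `k ≥ 2`), so both terms together are at most `2 ^ (26 k ^ 6) D X ^ (…)`.
Suggested lemmas: `const_bound` (natural numbers) and `exp_id` first.
-/

set_option autoImplicit false

namespace Pool.Agent.Helper84.VM

open Finset Pool.Agent.Helper58.LT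

theorem const_bound (k s : ℕ) (hk : 2 ≤ k) (hs : k + s ≤ k ^ 3) :
    2 * ((k + s).factorial ^ 2 * k ^ 6) * k.factorial * (2 * 2 ^ (3 * k ^ 3)) ^ (2 * k ^ 3) *
      (2 ^ (3 * k ^ 3)) ^ (k ^ 2) + 2 * (k - 1) ^ (2 * (k + s)) ≤ 2 ^ (26 * k ^ 6) := by
  have hk2 : k ≤ 2 ^ k := Nat.lt_two_pow_self.le
  have h1 : (k + s).factorial ≤ 2 ^ (3 * k ^ 4) := by
    calc (k + s).factorial ≤ (k ^ 3).factorial := Nat.factorial_le hs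
      _ ≤ (k ^ 3) ^ (k ^ 3) := Nat.factorial_le_pow _
      _ ≤ ((2 ^ k) ^ 3) ^ (k ^ 3) := Nat.pow_le_pow_left (Nat.pow_le_pow_left hk2 3) _
      _ = 2 ^ (3 * k ^ 4) := by
        rw [← pow_mul, ← pow_mul]
        congr 1
        ring
  have h2 : k ^ 6 ≤ 2 ^ (6 * k) := by
    calc k ^ 6 ≤ (2 ^ k) ^ 6 := Nat.pow_le_pow_left hk2 6
      _ = 2 ^ (6 * k) := by
        rw [← pow_mul]
        congr 1
        ring
  have h3 : k.factorial ≤ 2 ^ (k ^ 2) := by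
    calc k.factorial ≤ k ^ k := Nat.factorial_le_pow _
      _ ≤ (2 ^ k) ^ k := Nat.pow_le_pow_left hk2 k
      _ = 2 ^ (k ^ 2) := by
        rw [← pow_mul]
        congr 1
        ring
  have h4 : (2 * 2 ^ (3 * k ^ 3)) ^ (2 * k ^ 3) = 2 ^ (6 * k ^ 6 + 2 * k ^ 3) := by
    rw [← pow_succ', ← pow_mul]
    congr 1
    ring
  have h5 : (2 ^ (3 * k ^ 3)) ^ (k ^ 2) = 2 ^ (3 * k ^ 5) := by
    rw [← pow_mul]
    congr 1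
    ring
  have h6 : (k - 1) ^ (2 * (k + s)) ≤ 2 ^ (2 * k ^ 4) := by
    calc (k - 1) ^ (2 * (k + s)) ≤ (2 ^ k) ^ (2 * (k + s)) :=
          Nat.pow_le_pow_left ((Nat.sub_le _ _).trans hk2) _
      _ ≤ (2 ^ k) ^ (2 * k ^ 3) := Nat.pow_le_pow_right (by positivity) (by omega)
      _ = 2 ^ (2 * k ^ 4) := by
        rw [← pow_mul]
        congr 1
        ring
  have e5 : 2 * k ^ 5 ≤ k ^ 6 := by
    calc 2 * k ^ 5 ≤ k * k ^ 5 := Nat.mul_le_mul_right _ hk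
      _ = k ^ 6 := by ring
  have e4 : 2 * k ^ 4 ≤ k ^ 5 := by
    calc 2 * k ^ 4 ≤ k * k ^ 4 := Nat.mul_le_mul_right _ hk
      _ = k ^ 5 := by ring
  have e3 : 2 * k ^ 3 ≤ k ^ 4 := by
    calc 2 * k ^ 3 ≤ k * k ^ 3 := Nat.mul_le_mul_right _ hk
      _ = k ^ 4 := by ring
  have e2 : 2 * k ^ 2 ≤ k ^ 3 := by
    calc 2 * k ^ 2 ≤ k * k ^ 2 := Nat.mul_le_mul_right _ hk
      _ = k ^ 3 := by ring
  have e1 : 2 * k ≤ k ^ 2 := by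
    calc 2 * k ≤ k * k := Nat.mul_le_mul_right _ hk
      _ = k ^ 2 := by ring
  rw [h4, h5]
  calc 2 * ((k + s).factorial ^ 2 * k ^ 6) * k.factorial * 2 ^ (6 * k ^ 6 + 2 * k ^ 3) *
        2 ^ (3 * k ^ 5) + 2 * (k - 1) ^ (2 * (k + s))
      ≤ 2 * ((2 ^ (3 * k ^ 4)) ^ 2 * 2 ^ (6 * k)) * 2 ^ (k ^ 2) * 2 ^ (6 * k ^ 6 + 2 * k ^ 3) *
        2 ^ (3 * k ^ 5) + 2 * 2 ^ (2 * k ^ 4) := by gcongr
    _ = 2 ^ (1 + 3 * k ^ 4 * 2 + 6 * k + k ^ 2 + (6 * k ^ 6 + 2 * k ^ 3) + 3 * k ^ 5) +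
        2 ^ (2 * k ^ 4 + 1) := by
      simp only [pow_add, pow_mul, pow_one]
      ring
    _ ≤ 2 ^ (26 * k ^ 6 - 1) + 2 ^ (26 * k ^ 6 - 1) := by
      refine Nat.add_le_add (Nat.pow_le_pow_right (by norm_num) ?_)
        (Nat.pow_le_pow_right (by norm_num) ?_) <;> omega
    _ = 2 ^ (26 * k ^ 6) := by
      rw [← two_mul, ← pow_succ']
      congr 1
      omega

private theorem exp_step (k s p : ℕ) (X C η e : ℝ) (hK : (2 : ℝ) ≤ k) (hX1 : 1 ≤ X) (hC1 : 1 ≤ C)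
    (hp0 : (0 : ℝ) < p) (h1 : η ≤ (k : ℝ) * (k + 1) / 2) (h0 : 0 ≤ η)
    (he : e = (2 : ℝ) * s - (k : ℝ) * (k + 1) / 2 + η)
    (hpC : (p : ℝ) ≤ C * X ^ (1 / (k : ℝ))) :
    (p : ℝ) ^ (2 * s) * (p : ℝ) ^ (k * (k - 1) / 2) * (X / p) ^ e ≤
      C ^ (k ^ 2) * X ^ (e + (k - η / k)) := by
  have hX0 : 0 < X := by linarith
  have hK0 : (0 : ℝ) < k := by linarith
  have hc : ((k * (k - 1) / 2 : ℕ) : ℝ) = (k : ℝ) * (k - 1) / 2 := by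
    rw [← Nat.choose_two_right, Nat.cast_choose_two]
  have hd : 0 ≤ (k : ℝ) ^ 2 - η := by nlinarith
  have a1 : (p : ℝ) ^ (2 * s) * (p : ℝ) ^ (k * (k - 1) / 2) * (X / p) ^ e =
      X ^ e * (p : ℝ) ^ ((k : ℝ) ^ 2 - η) := by
    rw [← pow_add, ← Real.rpow_natCast, Real.div_rpow hX0.le hp0.le]
    have a2 : (p : ℝ) ^ ((k : ℝ) ^ 2 - η) =
        (p : ℝ) ^ (((2 * s + k * (k - 1) / 2 : ℕ) : ℝ)) / (p : ℝ) ^ e := by
      rw [← Real.rpow_sub hp0]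
      congr 1
      rw [Nat.cast_add, hc, he]
      push_cast
      ring
    rw [a2]
    ring
  have a3 : (p : ℝ) ^ ((k : ℝ) ^ 2 - η) ≤ C ^ (k ^ 2) * X ^ ((k : ℝ) - η / k) := by
    calc (p : ℝ) ^ ((k : ℝ) ^ 2 - η) ≤ (C * X ^ (1 / (k : ℝ))) ^ ((k : ℝ) ^ 2 - η) :=
          Real.rpow_le_rpow hp0.le hpC hd
      _ = C ^ ((k : ℝ) ^ 2 - η) * (X ^ (1 / (k : ℝ))) ^ ((k : ℝ) ^ 2 - η) :=
          Real.mul_rpow (by linarith) (by positivity)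
      _ = C ^ ((k : ℝ) ^ 2 - η) * X ^ ((k : ℝ) - η / k) := by
          rw [← Real.rpow_mul hX0.le]
          congr 2
          field_simp
      _ ≤ C ^ (k ^ 2) * X ^ ((k : ℝ) - η / k) := by
          refine mul_le_mul_of_nonneg_right ?_ (by positivity)
          rw [← Real.rpow_natCast C (k ^ 2)]
          exact Real.rpow_le_rpow_of_exponent_le hC1 (by push_cast; linarith)
  rw [a1, Real.rpow_add hX0]
  calc X ^ e * (p : ℝ) ^ ((k : ℝ) ^ 2 - η) ≤ X ^ e * (C ^ (k ^ 2) * X ^ ((k : ℝ) - η / k)) := by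
        gcongr
    _ = C ^ (k ^ 2) * (X ^ e * X ^ ((k : ℝ) - η / k)) := by ring

theorem iter_step (k s : ℕ) (hk : 2 ≤ k) (hs : k ^ 2 ≤ 2 * s) (hs' : k + s ≤ k ^ 3) (η : ℝ)
    (h0 : 0 ≤ η) (h1 : η ≤ (k : ℝ) * (k + 1) / 2) (D : ℝ) (hD : 1 ≤ D)
    (hJ : ∀ Y : ℕ, 1 ≤ Y →
      (JV s k Y : ℝ) ≤ D * (Y : ℝ) ^ ((2 : ℝ) * s - (k : ℝ) * (k + 1) / 2 + η)) :
    ∀ X : ℕ, 1 ≤ X → (JV (k + s) k X : ℝ) ≤ 2 ^ (26 * k ^ 6) * D *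
      (X : ℝ) ^ ((2 : ℝ) * ((k : ℝ) + s) - (k : ℝ) * (k + 1) / 2 + η * (1 - 1 / (k : ℝ))) := by
  intro X hX
  have hs1 : 1 ≤ s := by
    have : 4 ≤ k ^ 2 := by nlinarith
    omega
  obtain ⟨p, hp, hkp, hXp, hpX, hstep⟩ := step k s X (by omega) hs1 hX
  have hK : (2 : ℝ) ≤ k := by exact_mod_cast hk
  have hK0 : (0 : ℝ) < k := by linarith
  have hsR : (k : ℝ) ^ 2 ≤ 2 * s := by exact_mod_cast hs
  have hsR' : (k : ℝ) + s ≤ (k : ℝ) ^ 3 := by exact_mod_cast hs'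
  have hX1 : (1 : ℝ) ≤ X := by exact_mod_cast hX
  have hX0 : (0 : ℝ) < X := by linarith
  have hp1 : (1 : ℝ) ≤ p := by exact_mod_cast hp.one_lt.le
  have hp0 : (0 : ℝ) < p := by linarith
  obtain ⟨e, he⟩ : ∃ e : ℝ, e = (2 : ℝ) * s - (k : ℝ) * (k + 1) / 2 + η := ⟨_, rfl⟩
  have he0 : 0 ≤ e := by nlinarith
  have he1 : e ≤ 2 * (k : ℝ) ^ 3 := by nlinarith
  obtain ⟨C, hC⟩ : ∃ C : ℝ, C = 2 ^ (3 * k ^ 3) := ⟨_, rfl⟩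
  have hC1 : 1 ≤ C := by
    rw [hC]
    exact one_le_pow₀ (by norm_num)
  have hx1 : 1 ≤ (X : ℝ) ^ (1 / (k : ℝ)) := Real.one_le_rpow hX1 (by positivity)
  have hxk : ((X : ℝ) ^ (1 / (k : ℝ))) ^ k = X := by
    rw [← Real.rpow_natCast, ← Real.rpow_mul hX0.le, one_div, inv_mul_cancel₀ hK0.ne',
      Real.rpow_one]
  have hpC : (p : ℝ) ≤ C * (X : ℝ) ^ (1 / (k : ℝ)) := by
    have h2 : (p : ℝ) ^ k ≤ (C * (X : ℝ) ^ (1 / (k : ℝ))) ^ k := by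
      rw [mul_pow, hxk]
      have h : ((p ^ k : ℕ) : ℝ) ≤ ((2 ^ (3 * k ^ 4) * X : ℕ) : ℝ) := by exact_mod_cast hpX
      push_cast at h
      refine h.trans (le_of_eq ?_)
      rw [hC, ← pow_mul]
      congr 2
      ring
    exact le_of_pow_le_pow_left₀ (by omega) (by positivity) h2
  have hxX : (X : ℝ) ^ (1 / (k : ℝ)) ≤ X := by
    calc (X : ℝ) ^ (1 / (k : ℝ)) ≤ (X : ℝ) ^ (1 : ℝ) :=
          Real.rpow_le_rpow_of_exponent_le hX1 (by rw [div_le_one hK0]; linarith)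
      _ = X := Real.rpow_one _
  have hY : ((X / p + 1 : ℕ) : ℝ) ≤ 2 * C * ((X : ℝ) / p) := by
    have h2 : ((X / p : ℕ) : ℝ) ≤ (X : ℝ) / p := Nat.cast_div_le
    have h3 : 1 ≤ C * ((X : ℝ) / p) := by
      rw [← mul_div_assoc, le_div_iff₀ hp0, one_mul]
      exact hpC.trans (by gcongr)
    have h4 : (X : ℝ) / p ≤ C * ((X : ℝ) / p) := le_mul_of_one_le_left (by positivity) hC1
    push_cast
    linarith
  have hJ' : (JV s k (X / p + 1) : ℝ) ≤ D * ((2 * C) ^ (2 * k ^ 3) * ((X : ℝ) / p) ^ e) := by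
    have h2 := hJ (X / p + 1) (Nat.le_add_left 1 _)
    rw [← he] at h2
    refine h2.trans (mul_le_mul_of_nonneg_left ?_ (by linarith))
    calc ((X / p + 1 : ℕ) : ℝ) ^ e ≤ (2 * C * ((X : ℝ) / p)) ^ e :=
          Real.rpow_le_rpow (by positivity) hY he0
      _ = (2 * C) ^ e * ((X : ℝ) / p) ^ e := Real.mul_rpow (by positivity) (by positivity)
      _ ≤ (2 * C) ^ (2 * k ^ 3) * ((X : ℝ) / p) ^ e := by
        refine mul_le_mul_of_nonneg_right ?_ (by positivity)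
        rw [← Real.rpow_natCast (2 * C) (2 * k ^ 3)]
        exact Real.rpow_le_rpow_of_exponent_le (by linarith) (by push_cast; exact he1)
  have hexp := exp_step k s p X C η e hK hX1 hC1 hp0 h1 h0 he hpC
  obtain ⟨A, hA⟩ : ∃ A : ℝ, A = 2 * (((k + s).factorial : ℝ) ^ 2 * (k : ℝ) ^ 6) *
    (k.factorial : ℝ) := ⟨_, rfl⟩
  have hA0 : 0 ≤ A := by rw [hA]; positivity
  obtain ⟨E, hE⟩ : ∃ E : ℝ, E = (2 : ℝ) * ((k : ℝ) + s) - (k : ℝ) * (k + 1) / 2 +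
    η * (1 - 1 / (k : ℝ)) := ⟨_, rfl⟩
  rw [← hE]
  have hXE : (X : ℝ) ^ k * (X : ℝ) ^ (e + (k - η / k)) = (X : ℝ) ^ E := by
    rw [← Real.rpow_natCast, ← Real.rpow_add hX0]
    congr 1
    rw [hE, he]
    field_simp
    ring
  have hT1 : 2 * (((k + s).factorial ^ 2 * (k : ℝ) ^ 6) *
      ((p : ℝ) ^ (2 * s) * ((X : ℝ) ^ k * ((k.factorial : ℝ) * (p : ℝ) ^ (k * (k - 1) / 2)) *
        (JV s k (X / p + 1) : ℝ)))) ≤ A * (2 * C) ^ (2 * k ^ 3) * C ^ (k ^ 2) * D *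
        (X : ℝ) ^ E := by
    calc 2 * (((k + s).factorial ^ 2 * (k : ℝ) ^ 6) *
        ((p : ℝ) ^ (2 * s) * ((X : ℝ) ^ k * ((k.factorial : ℝ) * (p : ℝ) ^ (k * (k - 1) / 2)) *
        (JV s k (X / p + 1) : ℝ))))
        = A * ((p : ℝ) ^ (2 * s) * (p : ℝ) ^ (k * (k - 1) / 2)) * (X : ℝ) ^ k *
          (JV s k (X / p + 1) : ℝ) := by
          rw [hA]
          ring
      _ ≤ A * ((p : ℝ) ^ (2 * s) * (p : ℝ) ^ (k * (k - 1) / 2)) * (X : ℝ) ^ k *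
          (D * ((2 * C) ^ (2 * k ^ 3) * ((X : ℝ) / p) ^ e)) := by gcongr
      _ = A * (2 * C) ^ (2 * k ^ 3) * D * (X : ℝ) ^ k *
          ((p : ℝ) ^ (2 * s) * (p : ℝ) ^ (k * (k - 1) / 2) * ((X : ℝ) / p) ^ e) := by ring
      _ ≤ A * (2 * C) ^ (2 * k ^ 3) * D * (X : ℝ) ^ k *
          (C ^ (k ^ 2) * (X : ℝ) ^ (e + (k - η / k))) := by gcongr
      _ = A * (2 * C) ^ (2 * k ^ 3) * C ^ (k ^ 2) * D *
          ((X : ℝ) ^ k * (X : ℝ) ^ (e + (k - η / k))) := by ring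
      _ = A * (2 * C) ^ (2 * k ^ 3) * C ^ (k ^ 2) * D * (X : ℝ) ^ E := by rw [hXE]
  obtain ⟨b, hb⟩ : ∃ b : ℕ, b = k - 1 := ⟨_, rfl⟩
  have hT2 : 2 * ((X : ℝ) ^ b * (b : ℝ) ^ (k + s)) ^ 2 ≤
      2 * (b : ℝ) ^ (2 * (k + s)) * D * (X : ℝ) ^ E := by
    have h2 : ((X : ℝ) ^ b) ^ 2 ≤ (X : ℝ) ^ E := by
      rw [← pow_mul, ← Real.rpow_natCast]
      refine Real.rpow_le_rpow_of_exponent_le hX1 ?_
      have h3 : (b : ℝ) = k - 1 := by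
        rw [hb, Nat.cast_sub (by omega)]
        simp
      push_cast
      rw [h3, hE]
      have h4 : 0 ≤ η * (1 - 1 / (k : ℝ)) := by
        refine mul_nonneg h0 ?_
        rw [sub_nonneg, div_le_one hK0]
        linarith
      nlinarith
    calc 2 * ((X : ℝ) ^ b * (b : ℝ) ^ (k + s)) ^ 2
        = 2 * (b : ℝ) ^ (2 * (k + s)) * 1 * ((X : ℝ) ^ b) ^ 2 := by ring
      _ ≤ 2 * (b : ℝ) ^ (2 * (k + s)) * D * (X : ℝ) ^ E := by gcongr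
  have hcb := const_bound k s hk hs'
  have hcbR : A * (2 * C) ^ (2 * k ^ 3) * C ^ (k ^ 2) + 2 * (b : ℝ) ^ (2 * (k + s)) ≤
      2 ^ (26 * k ^ 6) := by
    rw [hA, hC, hb]
    exact_mod_cast hcb
  have hstepR : (JV (k + s) k X : ℝ) ≤ 2 * (((k + s).factorial ^ 2 * (k : ℝ) ^ 6) *
      ((p : ℝ) ^ (2 * s) * ((X : ℝ) ^ k * ((k.factorial : ℝ) * (p : ℝ) ^ (k * (k - 1) / 2)) *
        (JV s k (X / p + 1) : ℝ)))) + 2 * ((X : ℝ) ^ b * (b : ℝ) ^ (k + s)) ^ 2 := by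
    rw [hb]
    exact_mod_cast hstep
  calc (JV (k + s) k X : ℝ) ≤ A * (2 * C) ^ (2 * k ^ 3) * C ^ (k ^ 2) * D * (X : ℝ) ^ E +
        2 * (b : ℝ) ^ (2 * (k + s)) * D * (X : ℝ) ^ E := hstepR.trans (add_le_add hT1 hT2)
    _ = (A * (2 * C) ^ (2 * k ^ 3) * C ^ (k ^ 2) + 2 * (b : ℝ) ^ (2 * (k + s))) *
        (D * (X : ℝ) ^ E) := by ring
    _ ≤ 2 ^ (26 * k ^ 6) * (D * (X : ℝ) ^ E) :=
        mul_le_mul_of_nonneg_right hcbR (by positivity)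
    _ = 2 ^ (26 * k ^ 6) * D * (X : ℝ) ^ E := by ring

end Pool.Agent.Helper84.VM
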