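import Mathlib

/-!
# VM/Newton: power sums determine the polynomial `∏ (X - x_i)`

Newton's identities `MvPolynomial.mul_esymm_eq_sum` (`RingTheory/MvPolynomial/Symmetric/NewtonIdentities`)
evaluated (`MvPolynomial.aeval`) at `x` and at `y`: by strong induction on `j ≤ k` the elementary
symmetric functions `e_j(x) = e_j(y)`, because `j` is a unit in `R` for `1 ≤ j ≤ k`; the identity for
`e_j` only uses the power sums with exponents `1, …, j`.
Then `∏ (X - x_i) = ∑ (-1)^j e_j X^(k-j)` (`Multiset.prod_X_sub_C_eq_sum_esymm` or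
`MvPolynomial.prod_X_add_C_eq_sum_esymm`, `Multiset.prod_X_add_C_eq_sum_esymm`).
-/

set_option autoImplicit false

namespace Pool.Agent.Helper84.VM

open Finset

/-- The value of the elementary symmetric function `e_j` at `x`, as a number in `R`. -/
private theorem newton_step {R : Type} [CommRing R] (k : ℕ) (x : Fin k → R) (j : ℕ) :
    (j : R) * MvPolynomial.aeval x (MvPolynomial.esymm (Fin k) R j) = (-1) ^ (j + 1) *
      ∑ a ∈ antidiagonal j with a.1 < j,
        (-1) ^ a.1 * MvPolynomial.aeval x (MvPolynomial.esymm (Fin k) R a.1) *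
          ∑ i, x i ^ a.2 := by
  have h := congrArg (MvPolynomial.aeval x) (MvPolynomial.mul_esymm_eq_sum (Fin k) R j)
  simpa [MvPolynomial.psum] using h

private theorem newton_esymm {R : Type} [CommRing R] (k : ℕ)
    (hu : ∀ j : ℕ, 1 ≤ j → j ≤ k → IsUnit (j : R))
    (x y : Fin k → R) (h : ∀ j, 1 ≤ j → j ≤ k → ∑ i, x i ^ j = ∑ i, y i ^ j) (j : ℕ) (hj : j ≤ k) :
    MvPolynomial.aeval x (MvPolynomial.esymm (Fin k) R j) =
      MvPolynomial.aeval y (MvPolynomial.esymm (Fin k) R j) := by
  induction j using Nat.strong_induction_on with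
  | _ j ih =>
    rcases Nat.eq_zero_or_pos j with rfl | hpos
    · simp
    · apply (hu j hpos hj).mul_left_cancel
      rw [newton_step, newton_step]
      congr 1
      refine Finset.sum_congr rfl fun a ha => ?_
      rw [Finset.mem_filter, HasAntidiagonal.mem_antidiagonal] at ha
      rw [ih a.1 ha.2 (by omega), h a.2 (by omega) (by omega)]

theorem newton {R : Type} [CommRing R] (k : ℕ) (hu : ∀ j : ℕ, 1 ≤ j → j ≤ k → IsUnit (j : R))
    (x y : Fin k → R) (h : ∀ j, 1 ≤ j → j ≤ k → ∑ i, x i ^ j = ∑ i, y i ^ j) :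
    ∏ i, (Polynomial.X - Polynomial.C (x i)) = ∏ i, (Polynomial.X - Polynomial.C (y i)) := by
  have key : ∀ z : Fin k → R, ∏ i, (Polynomial.X - Polynomial.C (z i)) =
      ∑ j ∈ Finset.range (k + 1), (-1) ^ j *
        (Polynomial.C (MvPolynomial.aeval z (MvPolynomial.esymm (Fin k) R j)) *
          Polynomial.X ^ (k - j)) := by
    intro z
    have h1 := Multiset.prod_X_sub_X_eq_sum_esymm (Multiset.map z Finset.univ.val)
    rw [Multiset.map_map, Multiset.card_map] at h1
    have h2 : Multiset.card (Finset.univ : Finset (Fin k)).val = k := by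
      rw [Finset.card_val, Finset.card_univ, Fintype.card_fin]
    rw [h2] at h1
    have h3 : ∏ i, (Polynomial.X - Polynomial.C (z i)) =
        (Multiset.map ((fun t => Polynomial.X - Polynomial.C t) ∘ z) Finset.univ.val).prod := rfl
    rw [h3, h1]
    refine Finset.sum_congr rfl fun j _ => ?_
    rw [MvPolynomial.aeval_esymm_eq_multiset_esymm]
  rw [key x, key y]
  refine Finset.sum_congr rfl fun j hj => ?_
  rw [newton_esymm k hu x y h j (by have := Finset.mem_range.1 hj; omega)]

end Pool.Agent.Helper84.VM
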