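import Pool.Agent.Helper58.LT.Cover
import Pool.Agent.Helper84.VM.ClassB

/-!
# VM/NpB: Hölder over the residue classes mod `p`

`class_holder`: `cover_holder` (Helper58/LT/Cover) with `I = Icc 1 X`, `f = vino k`, `Q = range p`, `T c = Ic p X c`, `Y = 1`
(every integer is congruent to exactly one `c < p`), `U = Yp k p X`, `g = sm' (vino k)`.
-/

set_option autoImplicit false

namespace Pool.Agent.Helper84.VM

open Finset Pool.Agent.Helper58.LT

theorem class_holder (k s p X : ℕ) (hp : 0 < p) (hs : 1 ≤ s) :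
    en (Yp k p X ×ˢ tup (Icc (1 : ℤ) X) s) (mx k s) ≤
      p ^ (2 * s - 1) * ∑ c ∈ range p, en (Yp k p X ×ˢ tup (Ic p X c) s) (mx k s) := by
  have hsub : ∀ c ∈ range p, Ic p X (c : ℤ) ⊆ Icc (1 : ℤ) X := fun c _ => filter_subset _ _
  have hcov : ∀ i ∈ Icc (1 : ℤ) X, #{c ∈ range p | i ∈ Ic p X ((c : ℕ) : ℤ)} = 1 := by
    intro i hi
    rw [Finset.card_eq_one]
    have hp' : (p : ℤ) ≠ 0 := by exact_mod_cast hp.ne'
    have hr0 : 0 ≤ i % (p : ℤ) := Int.emod_nonneg _ hp'
    have hr1 : i % (p : ℤ) < p := Int.emod_lt_of_pos _ (by exact_mod_cast hp)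
    refine ⟨(i % (p : ℤ)).toNat, ?_⟩
    ext c
    simp only [mem_filter, mem_range, Ic, mem_singleton]
    constructor
    · rintro ⟨hc, -, hd⟩
      have h1 : i % (p : ℤ) = (c : ℤ) % p :=
        Int.emod_eq_emod_iff_emod_sub_eq_zero.2 (Int.emod_eq_zero_of_dvd hd)
      rw [Int.emod_eq_of_lt (Int.natCast_nonneg c) (by exact_mod_cast hc)] at h1
      omega
    · intro hc
      have h2 : (c : ℤ) = i % p := by omega
      refine ⟨by omega, hi, ?_⟩
      rw [h2]
      exact Int.dvd_self_sub_emod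
  have h := cover_holder (k := k) (Icc (1 : ℤ) X) (vino k) (range p)
    (fun c => Ic p X (c : ℤ)) 1 hsub hcov (Yp k p X) (sm' (vino k)) s hs
  rw [one_pow, one_mul, card_range] at h
  exact h

theorem np_bound (k s p X : ℕ) (hs : 1 ≤ s) (hp : p.Prime) (hkp : k < p) (hX : X < p ^ k) :
    en (Yp k p X ×ˢ tup (Icc (1 : ℤ) X) s) (mx k s) ≤
      p ^ (2 * s) * (X ^ k * (k.factorial * p ^ (k * (k - 1) / 2)) * JV s k (X / p + 1)) := by
  refine (class_holder k s p X hp.pos hs).trans ?_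
  have h1 : ∑ c ∈ range p, en (Yp k p X ×ˢ tup (Ic p X c) s) (mx k s) ≤
      p * (X ^ k * (k.factorial * p ^ (k * (k - 1) / 2)) * JV s k (X / p + 1)) := by
    have := Finset.sum_le_card_nsmul (range p)
      (fun c => en (Yp k p X ×ˢ tup (Ic p X c) s) (mx k s)) _
      (fun c _ => class_bound k s p X hp hkp hX (c : ℤ))
    simpa using this
  refine (Nat.mul_le_mul_left _ h1).trans (le_of_eq ?_)
  have h2 : p ^ (2 * s) = p ^ (2 * s - 1) * p := by
    rw [← pow_succ]
    congr 1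
    omega
  rw [h2]
  ring

end Pool.Agent.Helper84.VM
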