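import Mathlib

/-!
# VM/Primes: `k ^ 3` primes a bit larger than `X ^ (1 / k)`

Let `Z` be the least natural number with `X < Z ^ k` and `Z₀ = max Z (k + 1)`.  `Z ≥ 2` (as `X ≥ 1`), and
`(Z - 1) ^ k ≤ X`, `Z ≤ 2 (Z - 1)`, so `Z ^ k ≤ 2 ^ k * X`; `(k + 1) ^ k ≤ 2 ^ (k * k)`; so
`Z₀ ^ k ≤ 2 ^ (k ^ 2) * X` (`k ≥ 1`, `k + 1 ≤ 2 ^ k`).  By Bertrand (`Nat.exists_prime_lt_and_le_two_mul`) there is for
every `i < k ^ 3` a prime `p_i` with `2 ^ i Z₀ < p_i ≤ 2 ^ (i + 1) Z₀`; the `p_i` are different (strictly increasing).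
`p_i ^ k ≤ (2 ^ (k ^ 3) Z₀) ^ k ≤ 2 ^ (k ^ 4 + k ^ 2) X ≤ 2 ^ (3 k ^ 4) X`.  `P` = image of `range (k ^ 3)`.
-/

set_option autoImplicit false

namespace Pool.Agent.Helper84.VM

open Finset

private theorem primes_start (k X : ℕ) (hk : 1 ≤ k) (hX : 1 ≤ X) :
    ∃ Z : ℕ, k < Z ∧ X < Z ^ k ∧ Z ^ k ≤ 2 ^ (k ^ 2) * X := by
  classical
  have hex : ∃ Z : ℕ, X < Z ^ k := ⟨X + 1, by
    calc X < X + 1 := Nat.lt_succ_self X
      _ = (X + 1) ^ 1 := (pow_one _).symm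
      _ ≤ (X + 1) ^ k := Nat.pow_le_pow_right (Nat.succ_pos X) hk⟩
  have hZs := Nat.find_spec hex
  have hmin : ∀ m, m < Nat.find hex → ¬ X < m ^ k := fun m hm => Nat.find_min hex hm
  set Z := Nat.find hex with hZ
  have hZ2 : 2 ≤ Z := by
    by_contra hcon
    have h1 : Z ≤ 1 := by omega
    have h2 : Z ^ k ≤ 1 ^ k := Nat.pow_le_pow_left h1 k
    rw [one_pow] at h2
    omega
  have hpred : (Z - 1) ^ k ≤ X := by
    have := hmin (Z - 1) (by omega)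
    omega
  have hk2 : k ≤ k ^ 2 := by
    rw [pow_two]
    exact Nat.le_mul_of_pos_left k (by omega)
  refine ⟨max Z (k + 1), by
    have := le_max_right Z (k + 1)
    omega, lt_of_lt_of_le hZs (Nat.pow_le_pow_left (le_max_left _ _) k), ?_⟩
  rcases le_total Z (k + 1) with h | h
  · rw [max_eq_right h]
    have h1 : k + 1 ≤ 2 ^ k := Nat.lt_two_pow_self
    calc (k + 1) ^ k ≤ (2 ^ k) ^ k := Nat.pow_le_pow_left h1 k
      _ = 2 ^ (k ^ 2) := by rw [← pow_mul, pow_two]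
      _ ≤ 2 ^ (k ^ 2) * X := Nat.le_mul_of_pos_right _ (by omega)
  · rw [max_eq_left h]
    have h1 : Z ≤ 2 * (Z - 1) := by omega
    calc Z ^ k ≤ (2 * (Z - 1)) ^ k := Nat.pow_le_pow_left h1 k
      _ = 2 ^ k * (Z - 1) ^ k := mul_pow _ _ _
      _ ≤ 2 ^ (k ^ 2) * X := Nat.mul_le_mul (Nat.pow_le_pow_right (by norm_num) hk2) hpred

theorem exists_primes (k X : ℕ) (hk : 1 ≤ k) (hX : 1 ≤ X) :
    ∃ P : Finset ℕ, #P = k ^ 3 ∧
      ∀ p ∈ P, p.Prime ∧ k < p ∧ X < p ^ k ∧ p ^ k ≤ 2 ^ (3 * k ^ 4) * X := by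
  classical
  obtain ⟨Z, hkZ, hXZ, hZX⟩ := primes_start k X hk hX
  have hb : ∀ i : ℕ, ∃ p : ℕ, p.Prime ∧ 2 ^ i * Z < p ∧ p ≤ 2 ^ (i + 1) * Z := by
    intro i
    have hpos : 2 ^ i * Z ≠ 0 := by
      have : 0 < 2 ^ i * Z := Nat.mul_pos (by positivity) (by omega)
      omega
    obtain ⟨p, hp, h1, h2⟩ := Nat.exists_prime_lt_and_le_two_mul (2 ^ i * Z) hpos
    refine ⟨p, hp, h1, ?_⟩
    calc p ≤ 2 * (2 ^ i * Z) := h2
      _ = 2 ^ (i + 1) * Z := by ring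
  choose f hfp hf1 hf2 using hb
  have hmono : StrictMono f := by
    apply strictMono_nat_of_lt_succ
    intro i
    exact lt_of_le_of_lt (hf2 i) (hf1 (i + 1))
  refine ⟨(range (k ^ 3)).image f, ?_, ?_⟩
  · rw [card_image_of_injective _ hmono.injective, card_range]
  · intro p hp
    rw [mem_image] at hp
    obtain ⟨i, hi, rfl⟩ := hp
    rw [mem_range] at hi
    have hZf : Z < f i := by
      refine lt_of_le_of_lt ?_ (hf1 i)
      exact Nat.le_mul_of_pos_left Z (by positivity)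
    refine ⟨hfp i, by omega, lt_of_lt_of_le hXZ (Nat.pow_le_pow_left hZf.le k), ?_⟩
    have h1 : f i ≤ 2 ^ (k ^ 3) * Z := by
      refine (hf2 i).trans ?_
      exact Nat.mul_le_mul_right Z (Nat.pow_le_pow_right (by norm_num) hi)
    have hk24 : k ^ 2 ≤ k ^ 4 := Nat.pow_le_pow_right hk (by norm_num)
    calc f i ^ k ≤ (2 ^ (k ^ 3) * Z) ^ k := Nat.pow_le_pow_left h1 k
      _ = 2 ^ (k ^ 4) * Z ^ k := by rw [mul_pow, ← pow_mul, show k ^ 3 * k = k ^ 4 by ring]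
      _ ≤ 2 ^ (k ^ 4) * (2 ^ (k ^ 2) * X) := Nat.mul_le_mul_left _ hZX
      _ = 2 ^ (k ^ 4 + k ^ 2) * X := by rw [pow_add, mul_assoc]
      _ ≤ 2 ^ (3 * k ^ 4) * X :=
        Nat.mul_le_mul_right X (Nat.pow_le_pow_right (by norm_num) (by omega))

end Pool.Agent.Helper84.VM
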