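import Mathlib

/-!
# VM/Sep: a prime of `P` that keeps the `x_i` distinct

Suppose not: every `p ∈ P` divides some `x_i - x_j`, `i ≠ j`, hence divides
`Δ = ∏ i, ∏ j ∈ univ.filter (i < ·), (x_i - x_j) ≠ 0` (or the product over all pairs of the off-diagonal).  The primes are
different, so `∏ p ∈ P, p ∣ Δ` (`Finset.prod_primes_dvd` or `Finset.prod_dvd_of_coprime`).  `|x_i - x_j| ≤ X` and there are at
most `k ^ 2` factors: `∏ p ≤ |Δ| ≤ X ^ (k ^ 2)`, and so `∏ p ^ k ≤ X ^ (k ^ 3)`.  But `p ^ k ≥ X + 1` gives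
`∏ p ^ k ≥ (X + 1) ^ (k ^ 3) > X ^ (k ^ 3)`, contradiction.
(`(p : ℤ) ∣ x i - x j` is `ZMod`-free; use `Int.natAbs`.)
-/

set_option autoImplicit false

namespace Pool.Agent.Helper84.VM

open Finset

theorem separate (k X : ℕ) (hk : 1 ≤ k) (P : Finset ℕ) (hP : #P = k ^ 3)
    (hp : ∀ p ∈ P, p.Prime ∧ X < p ^ k) (x : Fin k → ℤ) (hx : ∀ i, x i ∈ Icc (1 : ℤ) X)
    (hinj : Function.Injective x) : ∃ p ∈ P, ∀ i j, i ≠ j → ¬ (p : ℤ) ∣ x i - x j := by
  by_contra hcon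
  push Not at hcon
  have hX : 1 ≤ X := by
    have h0 := hx ⟨0, hk⟩
    rw [Finset.mem_Icc] at h0
    have : (1 : ℤ) ≤ X := le_trans h0.1 h0.2
    exact_mod_cast this
  set D : ℕ := ∏ s ∈ (Finset.univ : Finset (Fin k)).offDiag, (x s.1 - x s.2).natAbs with hD
  have hfac : ∀ s ∈ (Finset.univ : Finset (Fin k)).offDiag,
      1 ≤ (x s.1 - x s.2).natAbs ∧ (x s.1 - x s.2).natAbs ≤ X := by
    intro s hs
    rw [Finset.mem_offDiag] at hs
    have hne : x s.1 ≠ x s.2 := fun h => hs.2.2 (hinj h)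
    have h1 := hx s.1
    have h2 := hx s.2
    rw [Finset.mem_Icc] at h1 h2
    constructor
    · have : x s.1 - x s.2 ≠ 0 := sub_ne_zero.mpr hne
      exact Int.natAbs_pos.mpr this
    · omega
  have hDpos : D ≠ 0 := by
    rw [hD, Finset.prod_ne_zero_iff]
    intro s hs
    exact Nat.one_le_iff_ne_zero.mp (hfac s hs).1
  have hDle : D ≤ X ^ (k ^ 2) := by
    calc D ≤ ∏ _s ∈ (Finset.univ : Finset (Fin k)).offDiag, X :=
          Finset.prod_le_prod' (fun s hs => (hfac s hs).2)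
      _ = X ^ (#((Finset.univ : Finset (Fin k)).offDiag)) := by rw [Finset.prod_const]
      _ ≤ X ^ (k ^ 2) := by
          apply Nat.pow_le_pow_right hX
          rw [Finset.offDiag_card, Finset.card_univ, Fintype.card_fin, pow_two]
          exact Nat.sub_le _ _
  have hdvd : ∏ p ∈ P, p ∣ D := by
    apply Finset.prod_primes_dvd
    · intro p hpP
      exact (hp p hpP).1.prime
    · intro p hpP
      obtain ⟨i, j, hij, hd⟩ := hcon p hpP
      have h1 : p ∣ (x i - x j).natAbs := Int.natCast_dvd.mp hd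
      refine h1.trans ?_
      rw [hD]
      exact Finset.dvd_prod_of_mem (fun s : Fin k × Fin k => (x s.1 - x s.2).natAbs)
        (a := (i, j)) (by simp [hij])
  have h1 : (∏ p ∈ P, p) ≤ X ^ (k ^ 2) := (Nat.le_of_dvd (Nat.pos_of_ne_zero hDpos) hdvd).trans hDle
  have h2 : (X + 1) ^ (k ^ 3) ≤ ∏ p ∈ P, p ^ k := by
    rw [← hP, ← Finset.prod_const]
    exact Finset.prod_le_prod' (fun p hpP => (hp p hpP).2)
  have h3 : ∏ p ∈ P, p ^ k ≤ X ^ (k ^ 3) := by
    rw [Finset.prod_pow]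
    calc (∏ p ∈ P, p) ^ k ≤ (X ^ (k ^ 2)) ^ k := Nat.pow_le_pow_left h1 k
      _ = X ^ (k ^ 3) := by rw [← pow_mul]; congr 1
  have h4 : X ^ (k ^ 3) < (X + 1) ^ (k ^ 3) :=
    Nat.pow_lt_pow_left (Nat.lt_succ_self X) (by positivity)
  omega

end Pool.Agent.Helper84.VM
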