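import Pool.Agent.Helper84.VM.NpB
import Pool.Agent.Helper84.VM.Deg
import Pool.Agent.Helper84.VM.Primes
import Pool.Agent.Helper84.VM.Sep

/-!
# VM/Step: the recursive inequality for natural numbers

Let `I = Icc 1 X`, `T = tup I (k + s)`, `T₀` = the tuples of `T` with `< k` distinct values, `T₁` the others, `K` = the permutations of
`Fin (k + s)`.  For `σ : K` let `B σ` = the tuples `x ∈ T` with `i ↦ x (σ (castAdd s i))` injective on `Fin k`.
* `en T F ≤ 2 en T₀ F + 2 en T₁ F` (`en_union`), `en T₀ F ≤ #T₀ ^ 2` (`en_le_card_sq`, `deg_count`).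
* `T₁ ⊆ K.biUnion B` (`nd_perm`), so `en T₁ F ≤ (k+s)! * ∑ σ, en (B σ) F` (`en_mono`, `en_biUnion`, `Fintype.card_perm`).
* `en (B σ) (sm' (vino k)) ≤ en (Y ×ˢ tup I s) (mx k s)` with `Y = (tup I k).filter Function.Injective` (classical decidability) by `en_map` with
  `e x = (fun i => x (σ (Fin.castAdd s i)), fun i => x (σ (Fin.natAdd k i)))`: `mx (e x) = sm' (vino k) x` (`Fin.sum_univ_add`, `Equiv.sum_comp`).
* `Y ×ˢ tup I s ⊆ P.biUnion (fun p => Yp k p X ×ˢ tup I s)` with `P` of `exists_primes` (`separate`), so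
  `en (Y ×ˢ tup I s) ≤ k ^ 3 * ∑ p ∈ P, en (Yp k p X ×ˢ tup I s) ≤ k ^ 6 * max` (`np_bound`); let `p` be the prime with the
  largest value of the right side of `np_bound` (`Finset.exists_max_image`, `P` is nonempty).
-/

set_option autoImplicit false

namespace Pool.Agent.Helper84.VM

open Finset Pool.Agent.Helper58.LT

private theorem nondeg_bound (k s X : ℕ) :
    en ((tup (Icc (1 : ℤ) X) (k + s)).filter fun x => ¬ #(univ.image x) < k) (sm' (vino k)) ≤
      (k + s).factorial ^ 2 * en (((tup (Icc (1 : ℤ) X) k).filter fun x => Function.Injective x) ×ˢ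
        tup (Icc (1 : ℤ) X) s) (mx k s) := by
  classical
  set I := Icc (1 : ℤ) X with hI
  let B : Equiv.Perm (Fin (k + s)) → Finset (Fin (k + s) → ℤ) := fun σ =>
    (tup I (k + s)).filter fun x => Function.Injective (fun i : Fin k => x (σ (Fin.castAdd s i)))
  have hsub : ((tup I (k + s)).filter fun x => ¬ #(univ.image x) < k) ⊆
      (univ : Finset (Equiv.Perm (Fin (k + s)))).biUnion B := by
    intro x hx
    rw [mem_filter] at hx
    obtain ⟨σ, hσ⟩ := nd_perm k s x (not_lt.1 hx.2)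
    rw [mem_biUnion]
    exact ⟨σ, mem_univ _, mem_filter.2 ⟨hx.1, hσ⟩⟩
  have hB : ∀ σ ∈ (univ : Finset (Equiv.Perm (Fin (k + s)))), en (B σ) (sm' (vino k)) ≤
      en (((tup I k).filter fun x => Function.Injective x) ×ˢ tup I s) (mx k s) := by
    intro σ _
    have hmx : ∀ x : Fin (k + s) → ℤ, mx k s ((fun i => x (σ (Fin.castAdd s i))),
        (fun i => x (σ (Fin.natAdd k i)))) = sm' (vino k) x := by
      intro x
      unfold mx sm'
      rw [← Equiv.sum_comp σ (fun i => vino k (x i)), Fin.sum_univ_add]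
    refine en_map (B σ) _ (sm' (vino k)) (mx k s) (fun x => ((fun i => x (σ (Fin.castAdd s i))),
        (fun i => x (σ (Fin.natAdd k i))))) ?_ ?_ ?_
    · intro x hx
      rw [mem_filter, mem_tup] at hx
      rw [mem_product, mem_filter, mem_tup, mem_tup]
      exact ⟨⟨fun i => hx.1 _, hx.2⟩, fun i => hx.1 _⟩
    · intro x _ y _ hxy
      rw [Prod.mk.injEq] at hxy
      funext j
      obtain ⟨i, rfl⟩ := σ.surjective j
      refine Fin.addCases (fun i => ?_) (fun i => ?_) i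
      · exact congrFun hxy.1 i
      · exact congrFun hxy.2 i
    · intro x _ y _ hxy
      rw [hmx, hmx]
      exact hxy
  refine (en_mono hsub _).trans ((en_biUnion _ _ _).trans ?_)
  refine (Nat.mul_le_mul_left _ (sum_le_card_nsmul _ _ _ hB)).trans (le_of_eq ?_)
  rw [card_univ, Fintype.card_perm, Fintype.card_fin, smul_eq_mul]
  ring

private theorem main_bound (k s X : ℕ) (hk : 1 ≤ k) (hs : 1 ≤ s) (P : Finset ℕ) (hPc : #P = k ^ 3)
    (hP : ∀ p ∈ P, p.Prime ∧ k < p ∧ X < p ^ k) (R : ℕ)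
    (hR : ∀ p ∈ P, p ^ (2 * s) * (X ^ k * (k.factorial * p ^ (k * (k - 1) / 2)) *
      JV s k (X / p + 1)) ≤ R) :
    en (((tup (Icc (1 : ℤ) X) k).filter fun x => Function.Injective x) ×ˢ
        tup (Icc (1 : ℤ) X) s) (mx k s) ≤ k ^ 6 * R := by
  classical
  have hsub : ((tup (Icc (1 : ℤ) X) k).filter fun x => Function.Injective x) ×ˢ
        tup (Icc (1 : ℤ) X) s ⊆
      P.biUnion (fun p => Yp k p X ×ˢ tup (Icc (1 : ℤ) X) s) := by
    intro z hz
    rw [mem_product, mem_filter, mem_tup] at hz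
    obtain ⟨⟨h1, h2⟩, h3⟩ := hz
    obtain ⟨p, hp, hp'⟩ := separate k X hk P hPc (fun p hp => ⟨(hP p hp).1, (hP p hp).2.2⟩)
      z.1 h1 h2
    rw [mem_biUnion]
    refine ⟨p, hp, mem_product.2 ⟨mem_filter.2 ⟨mem_tup.2 h1, hp'⟩, h3⟩⟩
  refine (en_mono hsub _).trans ((en_biUnion _ _ _).trans ?_)
  have hb : ∀ p ∈ P, en (Yp k p X ×ˢ tup (Icc (1 : ℤ) X) s) (mx k s) ≤ R := fun p hp =>
    (np_bound k s p X hs (hP p hp).1 (hP p hp).2.1 (hP p hp).2.2).trans (hR p hp)
  refine (Nat.mul_le_mul_left _ (sum_le_card_nsmul _ _ _ hb)).trans (le_of_eq ?_)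
  rw [hPc, smul_eq_mul]
  ring

theorem step (k s X : ℕ) (hk : 1 ≤ k) (hs : 1 ≤ s) (hX : 1 ≤ X) :
    ∃ p : ℕ, p.Prime ∧ k < p ∧ X < p ^ k ∧ p ^ k ≤ 2 ^ (3 * k ^ 4) * X ∧
      JV (k + s) k X ≤ 2 * (((k + s).factorial ^ 2 * k ^ 6) *
        (p ^ (2 * s) * (X ^ k * (k.factorial * p ^ (k * (k - 1) / 2)) * JV s k (X / p + 1)))) +
        2 * (X ^ (k - 1) * (k - 1) ^ (k + s)) ^ 2 := by
  classical
  obtain ⟨P, hPc, hP⟩ := exists_primes k X hk hX
  have hPne : P.Nonempty := by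
    rw [← card_pos, hPc]
    positivity
  obtain ⟨p, hpP, hpmax⟩ := exists_max_image P (fun p =>
    p ^ (2 * s) * (X ^ k * (k.factorial * p ^ (k * (k - 1) / 2)) * JV s k (X / p + 1))) hPne
  obtain ⟨hp1, hp2, hp3, hp4⟩ := hP p hpP
  refine ⟨p, hp1, hp2, hp3, hp4, ?_⟩
  have hM := main_bound k s X hk hs P hPc (fun q hq => ⟨(hP q hq).1, (hP q hq).2.1, (hP q hq).2.2.1⟩)
    _ hpmax
  have hI : #(Icc (1 : ℤ) X) = X := by simp
  have hIne : (Icc (1 : ℤ) X).Nonempty := by
    rw [nonempty_Icc]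
    exact_mod_cast hX
  have hT : tup (Icc (1 : ℤ) X) (k + s) =
      ((tup (Icc (1 : ℤ) X) (k + s)).filter fun x => #(univ.image x) < k) ∪
      ((tup (Icc (1 : ℤ) X) (k + s)).filter fun x => ¬ #(univ.image x) < k) :=
    (filter_union_filter_not_eq _ _).symm
  have h0 : en ((tup (Icc (1 : ℤ) X) (k + s)).filter fun x => #(univ.image x) < k)
      (sm' (vino k)) ≤ (X ^ (k - 1) * (k - 1) ^ (k + s)) ^ 2 := by
    refine (en_le_card_sq _ _).trans (Nat.pow_le_pow_left ?_ 2)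
    have := deg_count k (k + s) hk (Icc (1 : ℤ) X) hIne
    rw [hI] at this
    exact this
  have h1 := nondeg_bound k s X
  have h2 : JV (k + s) k X ≤
      2 * en ((tup (Icc (1 : ℤ) X) (k + s)).filter fun x => #(univ.image x) < k) (sm' (vino k)) +
      2 * en ((tup (Icc (1 : ℤ) X) (k + s)).filter fun x => ¬ #(univ.image x) < k)
        (sm' (vino k)) := by
    have h3 := en_union ((tup (Icc (1 : ℤ) X) (k + s)).filter fun x => #(univ.image x) < k)
      ((tup (Icc (1 : ℤ) X) (k + s)).filter fun x => ¬ #(univ.image x) < k) (sm' (vino k))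
    rw [← hT] at h3
    exact h3
  refine h2.trans ?_
  rw [add_comm]
  refine Nat.add_le_add (Nat.mul_le_mul_left _ (h1.trans ?_)) (Nat.mul_le_mul_left _ h0)
  refine (Nat.mul_le_mul_left _ hM).trans (le_of_eq ?_)
  ring

end Pool.Agent.Helper84.VM
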