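import Pool.Agent.Helper84.VM.Energy

/-!
# VM/TD: translation-dilation invariance of Vinogradov's system

* `sm_eq_iff`: `funext`, `j : Fin k` corresponds to the exponent `j + 1`.
* `psum_affine`: binomial theorem (`add_pow`): `∑ i, (a + q x_i) ^ j` is a combination of the power
  sums `∑ i, x_i ^ t`, `t ≤ j`; for `t = 0` both are the number of indices.
* `sm_affine`: `←` is `psum_affine`; `→`: `psum_affine` with `(-a, 1)` gives
  `∑ (q x_i) ^ j = ∑ (q y_i) ^ j`, cancel `q ^ j ≠ 0`.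
* `J_class`: let `a ∈ {1, …, p}`, `a ≡ c mod p` (e.g. `a = (c - 1) % p + 1`).  Every
  `u ∈ [1, X]` with `u ≡ c` is `u = a + p (t - 1)` with `t = (u - a) / p + 1 ∈ [1, X / p + 1]`.
  Use `en_map` with `e x = fun i => (x i - a) / p + 1` and `sm_affine`.
* `cong_of_eq`: all power sums (exponents `1..k`) of `Sum.elim y u` and `Sum.elim y' u'` agree
  (`Fin k ⊕ Fin s`, `Fintype.sum_sum_type`); by `psum_affine` with `(-c, 1)` those of the shifted
  tuples agree; `(u_i - c) ^ (j+1)` is divisible by `p ^ (j+1)`.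
-/

set_option autoImplicit false

namespace Pool.Agent.Helper84.VM

open Finset Pool.Agent.Helper58.LT

theorem sm_eq_iff (k : ℕ) {s s' : ℕ} (x : Fin s → ℤ) (y : Fin s' → ℤ) :
    sm' (vino k) x = sm' (vino k) y ↔ ∀ j, 1 ≤ j → j ≤ k → ∑ i, x i ^ j = ∑ i, y i ^ j := by
  have hx : ∀ {t : ℕ} (z : Fin t → ℤ) (j : Fin k),
      sm' (vino k) z j = ∑ i, z i ^ ((j : ℕ) + 1) := by
    intro t z j
    unfold sm'
    rw [Finset.sum_apply]
    rfl
  constructor
  · intro h j h1 h2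
    have h3 := congrFun h ⟨j - 1, by omega⟩
    rw [hx, hx] at h3
    have e : j - 1 + 1 = j := by omega
    simpa only [e] using h3
  · intro h
    funext j
    rw [hx, hx]
    exact h _ (by omega) (by omega)

theorem psum_affine {ι : Type} [Fintype ι] (k : ℕ) (a q : ℤ) (x y : ι → ℤ)
    (h : ∀ j, 1 ≤ j → j ≤ k → ∑ i, x i ^ j = ∑ i, y i ^ j) :
    ∀ j, 1 ≤ j → j ≤ k → ∑ i, (a + q * x i) ^ j = ∑ i, (a + q * y i) ^ j := by
  intro j _ hj
  have key : ∀ z : ι → ℤ, ∑ i, (a + q * z i) ^ j =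
      ∑ m ∈ range (j + 1), a ^ m * q ^ (j - m) * (j.choose m : ℤ) * ∑ i, z i ^ (j - m) := by
    intro z
    have h1 : ∀ i, (a + q * z i) ^ j =
        ∑ m ∈ range (j + 1), a ^ m * q ^ (j - m) * (j.choose m : ℤ) * z i ^ (j - m) := by
      intro i
      rw [add_pow]
      refine Finset.sum_congr rfl fun m _ => ?_
      rw [mul_pow]
      ring
    rw [Finset.sum_congr rfl fun i _ => h1 i, Finset.sum_comm]
    exact Finset.sum_congr rfl fun m _ => by rw [Finset.mul_sum]
  rw [key, key]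
  refine Finset.sum_congr rfl fun m hm => ?_
  rcases Nat.eq_zero_or_pos (j - m) with h0 | h0
  · rw [h0]
    simp
  · rw [h (j - m) h0 (by omega)]

theorem sm_affine (k : ℕ) {s : ℕ} (a q : ℤ) (hq : q ≠ 0) (x y : Fin s → ℤ) :
    sm' (vino k) (fun i => a + q * x i) = sm' (vino k) (fun i => a + q * y i) ↔
      sm' (vino k) x = sm' (vino k) y := by
  rw [sm_eq_iff, sm_eq_iff]
  constructor
  · intro h j h1 h2
    have h3 := psum_affine k (-a) 1 (fun i => a + q * x i) (fun i => a + q * y i) h j h1 h2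
    have h4 : ∀ z : Fin s → ℤ, ∑ i, (-a + 1 * (a + q * z i)) ^ j = q ^ j * ∑ i, z i ^ j := by
      intro z
      rw [Finset.mul_sum]
      refine Finset.sum_congr rfl fun i _ => ?_
      rw [← mul_pow]
      congr 1
      ring
    simp only [h4] at h3
    exact mul_left_cancel₀ (pow_ne_zero j hq) h3
  · intro h
    exact psum_affine k a q x y h

theorem J_class (k s X p : ℕ) (hp : 0 < p) (c : ℤ) :
    Js ((Icc (1 : ℤ) X).filter fun u => (p : ℤ) ∣ u - c) (vino k) s ≤ JV s k (X / p + 1) := by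
  have hp' : (0 : ℤ) < p := by exact_mod_cast hp
  obtain ⟨a, ha1, ha2, ha3⟩ : ∃ a : ℤ, 1 ≤ a ∧ a ≤ p ∧ (p : ℤ) ∣ a - c := by
    refine ⟨(c - 1) % p + 1, ?_, ?_, ?_⟩
    · have := Int.emod_nonneg (c - 1) hp'.ne'
      omega
    · have := Int.emod_lt_of_pos (c - 1) hp'
      omega
    · have h1 := Int.emod_add_mul_ediv (c - 1) p
      refine ⟨-((c - 1) / p), ?_⟩
      linarith
  have key : ∀ u ∈ (Icc (1 : ℤ) X).filter fun u => (p : ℤ) ∣ u - c,
      u = (a - p) + p * ((u - a) / p + 1) ∧ 1 ≤ (u - a) / p + 1 ∧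
        (u - a) / p + 1 ≤ ((X / p + 1 : ℕ) : ℤ) := by
    intro u hu
    rw [mem_filter, mem_Icc] at hu
    obtain ⟨⟨h1, h2⟩, h3⟩ := hu
    have h4 : (p : ℤ) ∣ u - a := by
      have h5 := dvd_sub h3 ha3
      have e : u - c - (a - c) = u - a := by ring
      rwa [e] at h5
    obtain ⟨t, ht⟩ := h4
    have ht0 : 0 ≤ t := by
      by_contra hneg
      have h6 : t ≤ -1 := by omega
      have h7 : (p : ℤ) * t ≤ p * (-1) := mul_le_mul_of_nonneg_left h6 hp'.le
      linarith
    have hdiv : (u - a) / p = t := by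
      rw [ht, Int.mul_ediv_cancel_left _ hp'.ne']
    rw [hdiv]
    refine ⟨?_, by omega, ?_⟩
    · have : u = a + p * t := by linarith
      rw [this]
      ring
    · have h8 : (p : ℤ) * t ≤ X := by linarith
      have h9 : t ≤ (X : ℤ) / p := by
        rw [Int.le_ediv_iff_mul_le hp']
        linarith
      push_cast
      omega
  unfold JV Js
  refine en_map _ _ _ _ (fun x i => (x i - a) / p + 1) ?_ ?_ ?_
  · intro x hx
    rw [mem_tup] at hx ⊢
    intro i
    rw [mem_Icc]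
    exact (key (x i) (hx i)).2
  · intro x hx y hy hxy
    have hx' := mem_tup.1 (Finset.mem_coe.1 hx)
    have hy' := mem_tup.1 (Finset.mem_coe.1 hy)
    funext i
    have h1 := congrFun hxy i
    simp only at h1
    rw [(key (x i) (hx' i)).1, (key (y i) (hy' i)).1, h1]
  · intro x hx y hy hxy
    have hx' := mem_tup.1 hx
    have hy' := mem_tup.1 hy
    have ex : x = fun i => (a - p) + p * ((x i - a) / p + 1) := funext fun i => (key (x i) (hx' i)).1
    have ey : y = fun i => (a - p) + p * ((y i - a) / p + 1) := funext fun i => (key (y i) (hy' i)).1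
    rw [← sm_affine k (a - p) p hp'.ne', ← ex, ← ey]
    exact hxy

theorem cong_of_eq (k p : ℕ) (c : ℤ) {s : ℕ} (y y' : Fin k → ℤ) (u u' : Fin s → ℤ)
    (hu : ∀ i, (p : ℤ) ∣ u i - c) (hu' : ∀ i, (p : ℤ) ∣ u' i - c)
    (h : sm' (vino k) y + sm' (vino k) u = sm' (vino k) y' + sm' (vino k) u') (j : ℕ)
    (hj : j < k) :
    (p : ℤ) ^ (j + 1) ∣ ∑ i, (y i - c) ^ (j + 1) - ∑ i, (y' i - c) ^ (j + 1) := by
  have hx : ∀ {t : ℕ} (z : Fin t → ℤ) (j : Fin k),
      sm' (vino k) z j = ∑ i, z i ^ ((j : ℕ) + 1) := by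
    intro t z j
    unfold sm'
    rw [Finset.sum_apply]
    rfl
  have h1 : ∀ m, 1 ≤ m → m ≤ k →
      ∑ i, (Sum.elim y u) i ^ m = ∑ i, (Sum.elim y' u') i ^ m := by
    intro m hm1 hm2
    have h2 := congrFun h ⟨m - 1, by omega⟩
    rw [Pi.add_apply, Pi.add_apply, hx, hx, hx, hx] at h2
    have e : m - 1 + 1 = m := by omega
    simp only [e] at h2
    rw [Fintype.sum_sum_type, Fintype.sum_sum_type]
    simpa using h2
  have h3 := psum_affine k (-c) 1 (Sum.elim y u) (Sum.elim y' u') h1 (j + 1) (by omega) (by omega)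
  rw [Fintype.sum_sum_type, Fintype.sum_sum_type] at h3
  simp only [Sum.elim_inl, Sum.elim_inr] at h3
  have e : ∀ z : ℤ, -c + 1 * z = z - c := fun z => by ring
  simp only [e] at h3
  have h4 : ∑ i, (y i - c) ^ (j + 1) - ∑ i, (y' i - c) ^ (j + 1) =
      ∑ i, (u' i - c) ^ (j + 1) - ∑ i, (u i - c) ^ (j + 1) := by linarith
  rw [h4]
  exact dvd_sub (Finset.dvd_sum fun i _ => pow_dvd_pow_of_dvd (hu' i) _)
    (Finset.dvd_sum fun i _ => pow_dvd_pow_of_dvd (hu i) _)

end Pool.Agent.Helper84.VM
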